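import Mathlib

/-! # The angular probability density and its trigonometric moments -/

set_option autoImplicit false

open Real MeasureTheory Set

namespace Pool.Agent.Helper83K9.Cap

/-- Bounded measurable functions. -/
def Nice (f : ℝ → ℝ) : Prop := Measurable f ∧ ∃ B, ∀ x, |f x| ≤ B

theorem Nice.const (r : ℝ) : Nice (fun _ => r) := ⟨measurable_const, |r|, fun _ => le_rfl⟩

theorem Nice.add {f g : ℝ → ℝ} (hf : Nice f) (hg : Nice g) : Nice (fun x => f x + g x) := by
  obtain ⟨h1, B, h2⟩ := hf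
  obtain ⟨h3, D, h4⟩ := hg
  exact ⟨h1.add h3, B + D, fun x => (abs_add_le _ _).trans (add_le_add (h2 x) (h4 x))⟩

theorem Nice.mul {f g : ℝ → ℝ} (hf : Nice f) (hg : Nice g) : Nice (fun x => f x * g x) := by
  obtain ⟨h1, B, h2⟩ := hf
  obtain ⟨h3, D, h4⟩ := hg
  refine ⟨h1.mul h3, B * D, fun x => ?_⟩
  rw [abs_mul]
  exact mul_le_mul (h2 x) (h4 x) (abs_nonneg _) ((abs_nonneg _).trans (h2 x))

theorem Nice.neg {f : ℝ → ℝ} (hf : Nice f) : Nice (fun x => -f x) := by
  obtain ⟨h1, B, h2⟩ := hf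
  exact ⟨h1.neg, B, fun x => by rw [abs_neg]; exact h2 x⟩

theorem Nice.sub {f g : ℝ → ℝ} (hf : Nice f) (hg : Nice g) : Nice (fun x => f x - g x) := by
  simpa [sub_eq_add_neg] using hf.add hg.neg

theorem Nice.pow {f : ℝ → ℝ} (hf : Nice f) (n : ℕ) : Nice (fun x => f x ^ n) := by
  obtain ⟨h1, B, h2⟩ := hf
  refine ⟨h1.pow_const n, B ^ n, fun x => ?_⟩
  rw [abs_pow]
  exact pow_le_pow_left₀ (abs_nonneg _) (h2 x) n

theorem Nice.intervalIntegrable {f : ℝ → ℝ} (hf : Nice f) (a b : ℝ) :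
    IntervalIntegrable f volume a b := by
  obtain ⟨h1, B, h2⟩ := hf
  refine IntervalIntegrable.mono_fun' (g := fun _ => B) (by simp) h1.aestronglyMeasurable ?_
  exact Filter.Eventually.of_forall fun x => by
    simpa [Real.norm_eq_abs] using h2 x

section

variable (c β : ℝ)

/-- `ρ²`. -/
noncomputable def rho2 (φ : ℝ) : ℝ := c ^ 2 * cos (φ - β) ^ 2 + sin (φ - β) ^ 2

/-- `ρ`. -/
noncomputable def rr (φ : ℝ) : ℝ := √(rho2 c β φ)

/-- `cos α`. -/
noncomputable def CC (φ : ℝ) : ℝ := c * cos (φ - β) / rr c β φ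

/-- `sin α`. -/
noncomputable def SS (φ : ℝ) : ℝ := sin (φ - β) / rr c β φ

/-- the probability density `dα / 2π` -/
noncomputable def aa (φ : ℝ) : ℝ := c / (2 * π * rho2 c β φ)

/-- `cos 3α` -/
noncomputable def C3 (φ : ℝ) : ℝ := CC c β φ ^ 3 - 3 * CC c β φ * SS c β φ ^ 2

/-- `sin 3α` -/
noncomputable def S3 (φ : ℝ) : ℝ := 3 * CC c β φ ^ 2 * SS c β φ - SS c β φ ^ 3

/-- the average -/
noncomputable def Av (f : ℝ → ℝ) : ℝ := ∫ φ in (0 : ℝ)..(2 * π), f φ * aa c β φ

variable {c β} (hc : 0 < c)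

set_option linter.unusedSectionVars false

include hc

theorem rho2_pos (φ : ℝ) : 0 < rho2 c β φ := by
  unfold rho2
  have h := sin_sq_add_cos_sq (φ - β)
  rcases eq_or_ne (cos (φ - β)) 0 with h0 | h0
  · rw [h0] at h ⊢
    have : sin (φ - β) ^ 2 = 1 := by linarith
    rw [this]; norm_num
  · positivity

theorem rr_pos (φ : ℝ) : 0 < rr c β φ := Real.sqrt_pos.mpr (rho2_pos hc φ)

theorem rr_sq (φ : ℝ) : rr c β φ ^ 2 = rho2 c β φ := Real.sq_sqrt (rho2_pos hc φ).le

theorem CC_sq_add_SS_sq (φ : ℝ) : CC c β φ ^ 2 + SS c β φ ^ 2 = 1 := by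
  have h := rr_pos (β := β) hc φ
  have h2 := rr_sq (β := β) hc φ
  unfold CC SS
  rw [div_pow, div_pow, ← add_div, h2]
  have h3 : (c * cos (φ - β)) ^ 2 + sin (φ - β) ^ 2 = rho2 c β φ := by unfold rho2; ring
  rw [h3, div_self (rho2_pos hc φ).ne']

theorem continuous_rho2 : Continuous (rho2 c β) := by
  unfold rho2; fun_prop

theorem continuous_rr : Continuous (rr c β) := by
  unfold rr; exact (continuous_rho2 hc).sqrt

theorem continuous_CC : Continuous (CC c β) := by
  unfold CC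
  exact Continuous.div (by fun_prop) (continuous_rr hc) (fun φ => (rr_pos hc φ).ne')

theorem continuous_SS : Continuous (SS c β) := by
  unfold SS
  exact Continuous.div (by fun_prop) (continuous_rr hc) (fun φ => (rr_pos hc φ).ne')

theorem continuous_aa : Continuous (aa c β) := by
  unfold aa
  exact Continuous.div (by fun_prop) (continuous_const.mul (continuous_rho2 hc))
    (fun φ => (mul_pos (by positivity) (rho2_pos hc φ)).ne')

theorem hasDerivAt_rho2 (φ : ℝ) :
    HasDerivAt (rho2 c β) (2 * (1 - c ^ 2) * (sin (φ - β) * cos (φ - β))) φ := by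
  have h1 : HasDerivAt (fun φ => cos (φ - β)) (-sin (φ - β)) φ := by
    simpa using ((hasDerivAt_id φ).sub_const β).cos
  have h2 : HasDerivAt (fun φ => sin (φ - β)) (cos (φ - β)) φ := by
    simpa using ((hasDerivAt_id φ).sub_const β).sin
  have h3 := ((h1.pow 2).const_mul (c ^ 2)).add (h2.pow 2)
  refine (h3.congr_deriv ?_)
  push_cast
  ring

theorem hasDerivAt_rr (φ : ℝ) :
    HasDerivAt (rr c β) ((1 - c ^ 2) * (sin (φ - β) * cos (φ - β)) / rr c β φ) φ := by
  have h := (hasDerivAt_rho2 (β := β) hc φ).sqrt (rho2_pos hc φ).ne'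
  refine h.congr_deriv ?_
  unfold rr
  have := (Real.sqrt_pos.mpr (rho2_pos (β := β) hc φ)).ne'
  field_simp

theorem hasDerivAt_CC (φ : ℝ) :
    HasDerivAt (CC c β) (-(2 * π * aa c β φ) * SS c β φ) φ := by
  have h1 : HasDerivAt (fun φ => cos (φ - β)) (-sin (φ - β)) φ := by
    simpa using ((hasDerivAt_id φ).sub_const β).cos
  have h := (h1.const_mul c).div (hasDerivAt_rr (β := β) hc φ) (rr_pos hc φ).ne'
  refine h.congr_deriv ?_
  have hr := (rr_pos (β := β) hc φ).ne'
  have hr2 := rr_sq (β := β) hc φ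
  unfold aa SS
  rw [← hr2]
  have hpi := Real.pi_pos.ne'
  field_simp
  have e : rr c β φ ^ 2 = c ^ 2 * cos (φ - β) ^ 2 + sin (φ - β) ^ 2 := hr2
  have t := sin_sq_add_cos_sq (φ - β)
  rw [e]
  linear_combination (-sin (φ-β)) * t

theorem hasDerivAt_SS (φ : ℝ) :
    HasDerivAt (SS c β) ((2 * π * aa c β φ) * CC c β φ) φ := by
  have h2 : HasDerivAt (fun φ => sin (φ - β)) (cos (φ - β)) φ := by
    simpa using ((hasDerivAt_id φ).sub_const β).sin
  have h := h2.div (hasDerivAt_rr (β := β) hc φ) (rr_pos hc φ).ne'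
  refine h.congr_deriv ?_
  have hr := (rr_pos (β := β) hc φ).ne'
  have hr2 := rr_sq (β := β) hc φ
  unfold aa CC
  rw [← hr2]
  have hpi := Real.pi_pos.ne'
  field_simp
  have e : rr c β φ ^ 2 = c ^ 2 * cos (φ - β) ^ 2 + sin (φ - β) ^ 2 := hr2
  have t := sin_sq_add_cos_sq (φ - β)
  rw [e]
  linear_combination (cos (φ-β) * c ^ 2) * t

theorem C3_sq_add_S3_sq (φ : ℝ) : C3 c β φ ^ 2 + S3 c β φ ^ 2 = 1 := by
  have h := CC_sq_add_SS_sq (β := β) hc φ
  have : C3 c β φ ^ 2 + S3 c β φ ^ 2 = (CC c β φ ^ 2 + SS c β φ ^ 2) ^ 3 := by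
    unfold C3 S3; ring
  rw [this, h, one_pow]

theorem hasDerivAt_C3 (φ : ℝ) :
    HasDerivAt (C3 c β) (-(3 * (2 * π * aa c β φ)) * S3 c β φ) φ := by
  have h1 := hasDerivAt_CC (β := β) hc φ
  have h2 := hasDerivAt_SS (β := β) hc φ
  have h := (h1.pow 3).sub ((h1.const_mul 3).mul (h2.pow 2))
  refine h.congr_deriv ?_
  simp only [Pi.pow_apply]
  unfold S3
  push_cast
  ring

theorem hasDerivAt_S3 (φ : ℝ) :
    HasDerivAt (S3 c β) ((3 * (2 * π * aa c β φ)) * C3 c β φ) φ := by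
  have h1 := hasDerivAt_CC (β := β) hc φ
  have h2 := hasDerivAt_SS (β := β) hc φ
  have h := (((h1.pow 2).const_mul 3).mul h2).sub (h2.pow 3)
  refine h.congr_deriv ?_
  simp only [Pi.pow_apply]
  unfold C3
  push_cast
  ring

theorem aa_pos (φ : ℝ) : 0 < aa c β φ := by
  unfold aa
  have := rho2_pos (β := β) hc φ
  positivity

theorem Av_one : Av c β (fun _ => 1) = 1 := by
  unfold Av
  set f : ℝ → ℝ := fun φ => φ + arctan ((1 - c) * (sin (φ - β) * cos (φ - β)) /
    (c * cos (φ - β) ^ 2 + sin (φ - β) ^ 2)) with hf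
  have hD : ∀ φ, 0 < c * cos (φ - β) ^ 2 + sin (φ - β) ^ 2 := by
    intro φ
    have h := sin_sq_add_cos_sq (φ - β)
    rcases eq_or_ne (cos (φ - β)) 0 with h0 | h0
    · rw [h0] at h ⊢
      have : sin (φ - β) ^ 2 = 1 := by linarith
      rw [this]; norm_num
    · positivity
  have hd : ∀ φ, HasDerivAt f (2 * π * aa c β φ) φ := by
    intro φ
    have h1 : HasDerivAt (fun φ => cos (φ - β)) (-sin (φ - β)) φ := by
      simpa using ((hasDerivAt_id φ).sub_const β).cos
    have h2 : HasDerivAt (fun φ => sin (φ - β)) (cos (φ - β)) φ := by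
      simpa using ((hasDerivAt_id φ).sub_const β).sin
    have h3 := ((h2.fun_mul h1).const_mul (1 - c))
    have h4 := ((h1.fun_pow 2).const_mul c).fun_add (h2.fun_pow 2)
    have h5 := (h3.fun_div h4 (hD φ).ne').arctan
    have h6 := (hasDerivAt_id' φ).fun_add h5
    refine h6.congr_deriv ?_
    have t := sin_sq_add_cos_sq (φ - β)
    have hr := rho2_pos (β := β) hc φ
    have hDφ := hD φ
    unfold aa
    set s := sin (φ - β) with hs
    set k := cos (φ - β) with hk
    have e1 : (c * k ^ 2 + s ^ 2) ^ 2 + ((1 - c) * (s * k)) ^ 2 = c ^ 2 * k ^ 2 + s ^ 2 := by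
      have : (c * k ^ 2 + s ^ 2) ^ 2 + ((1 - c) * (s * k)) ^ 2
        = (c ^ 2 * k ^ 2 + s ^ 2) * (s ^ 2 + k ^ 2) := by ring
      rw [this, t, mul_one]
    have hr' : 0 < c ^ 2 * k ^ 2 + s ^ 2 := hr
    have e2 : 1 + ((1 - c) * (s * k) / (c * k ^ 2 + s ^ 2)) ^ 2
        = (c ^ 2 * k ^ 2 + s ^ 2) / (c * k ^ 2 + s ^ 2) ^ 2 := by
      rw [← e1]; field_simp
    rw [e2]
    unfold rho2
    rw [← hs, ← hk]
    have hpi := Real.pi_pos.ne'
    field_simp
    push_cast
    ring_nf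
    have e3 : s ^ 2 = 1 - k ^ 2 := by linarith
    have e4 : s ^ 4 = (1 - k ^ 2) ^ 2 := by rw [← e3]; ring
    rw [e4, e3]
    ring
  have h := intervalIntegral.integral_eq_sub_of_hasDerivAt (a := 0) (b := 2 * π)
    (fun x _ => hd x) ((continuous_const.mul (continuous_aa hc)).intervalIntegrable _ _)
  have hper : f (2 * π) - f 0 = 2 * π := by
    simp only [hf]
    have e1 : 2 * π - β = (0 - β) + 2 * π := by ring
    rw [e1, sin_add_two_pi, cos_add_two_pi]
    ring
  rw [hper, intervalIntegral.integral_const_mul] at h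
  have h2 : ∫ φ in (0:ℝ)..(2 * π), aa c β φ = 1 := by
    have := Real.pi_pos
    have h3 : 2 * π * (∫ φ in (0:ℝ)..(2 * π), aa c β φ) = 2 * π * 1 := by rw [h]; ring
    exact mul_left_cancel₀ (by positivity) h3
  simpa using h2

theorem CC_per : CC c β (2 * π) = CC c β 0 := by
  unfold CC rr rho2
  have e1 : 2 * π - β = (0 - β) + 2 * π := by ring
  rw [e1, sin_add_two_pi, cos_add_two_pi]

theorem SS_per : SS c β (2 * π) = SS c β 0 := by
  unfold SS rr rho2
  have e1 : 2 * π - β = (0 - β) + 2 * π := by ring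
  rw [e1, sin_add_two_pi, cos_add_two_pi]

theorem nice_CC : Nice (CC c β) := by
  refine ⟨(continuous_CC hc).measurable, 1, fun φ => ?_⟩
  have := CC_sq_add_SS_sq (β := β) hc φ
  rw [abs_le]
  constructor <;> nlinarith [sq_nonneg (SS c β φ)]

theorem nice_SS : Nice (SS c β) := by
  refine ⟨(continuous_SS hc).measurable, 1, fun φ => ?_⟩
  have := CC_sq_add_SS_sq (β := β) hc φ
  rw [abs_le]
  constructor <;> nlinarith [sq_nonneg (CC c β φ)]

theorem nice_C3 : Nice (C3 c β) :=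
  ((nice_CC hc).pow 3).sub (((Nice.const 3).mul (nice_CC hc)).mul ((nice_SS hc).pow 2))

theorem nice_S3 : Nice (S3 c β) :=
  (((Nice.const 3).mul ((nice_CC hc).pow 2)).mul (nice_SS hc)).sub ((nice_SS hc).pow 3)

theorem Av_add {f g : ℝ → ℝ} (hf : Nice f) (hg : Nice g) :
    Av c β (fun x => f x + g x) = Av c β f + Av c β g := by
  unfold Av
  rw [← intervalIntegral.integral_add]
  · congr 1; funext x; ring
  · exact (hf.intervalIntegrable _ _).mul_continuousOn (continuous_aa hc).continuousOn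
  · exact (hg.intervalIntegrable _ _).mul_continuousOn (continuous_aa hc).continuousOn

omit hc in
theorem Av_smul (r : ℝ) (f : ℝ → ℝ) : Av c β (fun x => r * f x) = r * Av c β f := by
  unfold Av
  rw [← intervalIntegral.integral_const_mul]
  congr 1; funext x; ring

theorem Av_sub {f g : ℝ → ℝ} (hf : Nice f) (hg : Nice g) :
    Av c β (fun x => f x - g x) = Av c β f - Av c β g := by
  have h := Av_add (β := β) hc hf ((Nice.const (-1)).mul hg)
  rw [Av_smul] at h
  have e : (fun x => f x - g x) = fun x => f x + -1 * g x := by funext x; ring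
  rw [e, h]; ring

theorem Av_mono {f g : ℝ → ℝ} (hf : Nice f) (hg : Nice g) (h : ∀ x, f x ≤ g x) :
    Av c β f ≤ Av c β g := by
  unfold Av
  apply intervalIntegral.integral_mono_on (by positivity)
  · exact (hf.intervalIntegrable _ _).mul_continuousOn (continuous_aa hc).continuousOn
  · exact (hg.intervalIntegrable _ _).mul_continuousOn (continuous_aa hc).continuousOn
  · intro x _
    exact mul_le_mul_of_nonneg_right (h x) (aa_pos hc x).le

omit hc in
theorem Av_congr {f g : ℝ → ℝ} (h : ∀ x, f x = g x) : Av c β f = Av c β g := by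
  have : f = g := funext h
  rw [this]

theorem Av_const (r : ℝ) : Av c β (fun _ => r) = r := by
  have h := Av_smul (c := c) (β := β) r (fun _ => 1)
  rw [Av_one hc] at h
  simpa using h

theorem Av_sq_le {f : ℝ → ℝ} (hf : Nice f) : Av c β f ^ 2 ≤ Av c β (fun x => f x ^ 2) := by
  set m := Av c β f with hm
  have h1 : 0 ≤ Av c β (fun x => (f x - m) ^ 2) := by
    have := Av_mono (β := β) hc (Nice.const 0) ((hf.sub (Nice.const m)).pow 2)
      (fun x => sq_nonneg _)
    rwa [Av_const hc] at this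
  have h2 : Av c β (fun x => (f x - m) ^ 2)
      = Av c β (fun x => f x ^ 2) - 2 * m * m + m ^ 2 := by
    have e1 : Av c β (fun x => (f x - m) ^ 2)
        = Av c β (fun x => (f x ^ 2 - 2 * m * f x) + m ^ 2) := Av_congr (fun x => by ring)
    rw [e1, Av_add hc ((hf.pow 2).sub ((Nice.const _).mul hf)) (Nice.const _),
      Av_sub hc (hf.pow 2) ((Nice.const _).mul hf), Av_smul, Av_const hc, ← hm]
  nlinarith

/-- second moments of a rotating pair -/
theorem Av_pair {u v : ℝ → ℝ} {n : ℝ} (hn : n ≠ 0) (hu : Nice u) (hv : Nice v)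
    (hu' : ∀ φ, HasDerivAt u (-(n * (2 * π * aa c β φ)) * v φ) φ)
    (hv' : ∀ φ, HasDerivAt v ((n * (2 * π * aa c β φ)) * u φ) φ)
    (hpu : u (2 * π) = u 0) (hpv : v (2 * π) = v 0) (h1 : ∀ φ, u φ ^ 2 + v φ ^ 2 = 1) :
    Av c β (fun φ => u φ ^ 2) = 1 / 2 ∧ Av c β (fun φ => v φ ^ 2) = 1 / 2 ∧
      Av c β (fun φ => u φ * v φ) = 0 := by
  have hpi := Real.pi_pos
  have hcu : Continuous u := continuous_iff_continuousAt.mpr fun φ => (hu' φ).continuousAt
  have hcv : Continuous v := continuous_iff_continuousAt.mpr fun φ => (hv' φ).continuousAt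
  have hca := continuous_aa (β := β) hc
  have i1 : ∫ φ in (0:ℝ)..(2 * π), (u φ ^ 2 - v φ ^ 2) * aa c β φ = 0 := by
    have hd : ∀ φ, HasDerivAt (fun φ => u φ * v φ)
        ((n * (2 * π)) * ((u φ ^ 2 - v φ ^ 2) * aa c β φ)) φ := by
      intro φ
      exact ((hu' φ).mul (hv' φ)).congr_deriv (by ring)
    have h := intervalIntegral.integral_eq_sub_of_hasDerivAt (a := 0) (b := 2 * π)
      (fun x _ => hd x) (Continuous.intervalIntegrable (by fun_prop) _ _)
    rw [hpu, hpv, sub_self, intervalIntegral.integral_const_mul] at h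
    exact (mul_eq_zero.mp h).resolve_left (by positivity)
  have i2 : ∫ φ in (0:ℝ)..(2 * π), (u φ * v φ) * aa c β φ = 0 := by
    have hd : ∀ φ, HasDerivAt (fun φ => v φ * v φ)
        ((n * (4 * π)) * ((u φ * v φ) * aa c β φ)) φ := by
      intro φ
      exact ((hv' φ).mul (hv' φ)).congr_deriv (by ring)
    have h := intervalIntegral.integral_eq_sub_of_hasDerivAt (a := 0) (b := 2 * π)
      (fun x _ => hd x) (Continuous.intervalIntegrable (by fun_prop) _ _)
    rw [hpv, sub_self, intervalIntegral.integral_const_mul] at h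
    exact (mul_eq_zero.mp h).resolve_left (by positivity)
  have i3 : Av c β (fun φ => u φ ^ 2) - Av c β (fun φ => v φ ^ 2) = 0 := by
    rw [← Av_sub hc (hu.pow 2) (hv.pow 2)]
    exact i1
  have i4 : Av c β (fun φ => u φ ^ 2) + Av c β (fun φ => v φ ^ 2) = 1 := by
    rw [← Av_add hc (hu.pow 2) (hv.pow 2)]
    rw [Av_congr (g := fun _ => 1) (fun x => h1 x), Av_one hc]
  exact ⟨by linarith, by linarith, i2⟩

theorem moments1 : Av c β (fun φ => CC c β φ ^ 2) = 1 / 2 ∧ Av c β (fun φ => SS c β φ ^ 2) = 1 / 2 ∧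
      Av c β (fun φ => CC c β φ * SS c β φ) = 0 :=
  Av_pair hc (n := 1) one_ne_zero (nice_CC hc) (nice_SS hc)
    (fun φ => (hasDerivAt_CC hc φ).congr_deriv (by ring))
    (fun φ => (hasDerivAt_SS hc φ).congr_deriv (by ring)) (CC_per hc) (SS_per hc)
    (CC_sq_add_SS_sq hc)

theorem moments3 : Av c β (fun φ => C3 c β φ ^ 2) = 1 / 2 ∧ Av c β (fun φ => S3 c β φ ^ 2) = 1 / 2 ∧
      Av c β (fun φ => C3 c β φ * S3 c β φ) = 0 :=
  Av_pair hc (n := 3) (by norm_num) (nice_C3 hc) (nice_S3 hc)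
    (fun φ => (hasDerivAt_C3 hc φ).congr_deriv (by ring))
    (fun φ => (hasDerivAt_S3 hc φ).congr_deriv (by ring))
    (by unfold C3; rw [CC_per hc, SS_per hc]) (by unfold S3; rw [CC_per hc, SS_per hc])
    (C3_sq_add_S3_sq hc)

/-- Bessel's inequality -/
theorem bessel3 {G : ℝ → ℝ} (hG : Nice G) :
    2 * (Av c β (fun φ => C3 c β φ * G φ) ^ 2 + Av c β (fun φ => S3 c β φ * G φ) ^ 2)
      ≤ Av c β (fun φ => G φ ^ 2) := by
  set g := Av c β (fun φ => C3 c β φ * G φ) with hg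
  set h := Av c β (fun φ => S3 c β φ * G φ) with hh
  obtain ⟨m1, m2, m3⟩ := moments3 (β := β) hc
  have nC := nice_C3 (β := β) hc
  have nS := nice_S3 (β := β) hc
  have h1 : 0 ≤ Av c β (fun φ => (G φ - 2 * g * C3 c β φ - 2 * h * S3 c β φ) ^ 2) := by
    have := Av_mono (β := β) hc (Nice.const 0)
      (((hG.sub ((Nice.const (2 * g)).mul nC)).sub ((Nice.const (2 * h)).mul nS)).pow 2)
      (fun x => sq_nonneg _)
    rwa [Av_const hc] at this
  have e1 : Av c β (fun φ => (G φ - 2 * g * C3 c β φ - 2 * h * S3 c β φ) ^ 2)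
      = Av c β (fun φ => ((((G φ ^ 2 - (4 * g) * (C3 c β φ * G φ)) - (4 * h) * (S3 c β φ * G φ))
        + (4 * g ^ 2) * C3 c β φ ^ 2) + (4 * h ^ 2) * S3 c β φ ^ 2)
        + (8 * g * h) * (C3 c β φ * S3 c β φ)) := Av_congr (fun x => by ring)
  have n1 : Nice (fun φ => (4 * g) * (C3 c β φ * G φ)) := (Nice.const _).mul (nC.mul hG)
  have n2 : Nice (fun φ => (4 * h) * (S3 c β φ * G φ)) := (Nice.const _).mul (nS.mul hG)
  have n3 : Nice (fun φ => (4 * g ^ 2) * C3 c β φ ^ 2) := (Nice.const _).mul (nC.pow 2)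
  have n4 : Nice (fun φ => (4 * h ^ 2) * S3 c β φ ^ 2) := (Nice.const _).mul (nS.pow 2)
  have n5 : Nice (fun φ => (8 * g * h) * (C3 c β φ * S3 c β φ)) := (Nice.const _).mul (nC.mul nS)
  rw [e1, Av_add hc (((((hG.pow 2).sub n1).sub n2).add n3).add n4) n5,
    Av_add hc ((((hG.pow 2).sub n1).sub n2).add n3) n4,
    Av_add hc (((hG.pow 2).sub n1).sub n2) n3,
    Av_sub hc ((hG.pow 2).sub n1) n2, Av_sub hc (hG.pow 2) n1, Av_smul, Av_smul, Av_smul, Av_smul,
    Av_smul, m1, m2, m3, ← hg, ← hh] at h1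
  nlinarith

end

end Pool.Agent.Helper83K9.Cap
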