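import Mathlib
import Pool.Agent.H115R3.Filling.Defs

/-! # Spherical trigonometry and the extended functions -/

set_option autoImplicit false

open Real Set Filter Topology

namespace Pool.Agent.Helper83K9.Cap

open Pool.Agent.H115R3.Filling

/-- The distance, in the unit sphere, of two points at angle `δ` on a circle of radius `arcsin k`
about a pole. -/
noncomputable def chord (k δ : ℝ) : ℝ := 2 * arcsin (k * |sin (δ / 2)|)

theorem chord_nonneg {k : ℝ} (hk : 0 ≤ k) (δ : ℝ) : 0 ≤ chord k δ := by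
  unfold chord
  have : 0 ≤ arcsin (k * |sin (δ / 2)|) := arcsin_nonneg.mpr (by positivity)
  linarith

theorem chord_le_pi (k δ : ℝ) : chord k δ ≤ π := by
  unfold chord
  have := arcsin_le_pi_div_two (k * |sin (δ / 2)|)
  linarith

theorem cos_chord {k : ℝ} (hk : 0 ≤ k) (hk1 : k ≤ 1) (δ : ℝ) :
    cos (chord k δ) = 1 - k ^ 2 + k ^ 2 * cos δ := by
  unfold chord
  have h1 : |sin (δ / 2)| ≤ 1 := abs_sin_le_one _
  have h2 : 0 ≤ |sin (δ / 2)| := abs_nonneg _
  have h3 : sin (arcsin (k * |sin (δ / 2)|)) = k * |sin (δ / 2)| :=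
    sin_arcsin (by nlinarith) (by nlinarith)
  have h4 := sin_sq_add_cos_sq (arcsin (k * |sin (δ / 2)|))
  rw [cos_two_mul]
  have h5 : cos δ = 1 - 2 * sin (δ / 2) ^ 2 := by
    have e : δ = 2 * (δ / 2) := by ring
    conv_lhs => rw [e]
    rw [cos_two_mul]
    have := sin_sq_add_cos_sq (δ / 2)
    linarith
  rw [h3, mul_pow, sq_abs] at h4
  rw [h5]
  linarith

/-- The functions `arcsin (k cos a)` are `1`-Lipschitz for the chordal distance. -/
theorem arcsin_lip_chord {k : ℝ} (hk : 0 ≤ k) (hk1 : k ≤ 1) (a b : ℝ) :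
    |arcsin (k * cos a) - arcsin (k * cos b)| ≤ chord k (a - b) := by
  have hA : ∀ a, -1 ≤ k * cos a ∧ k * cos a ≤ 1 := by
    intro a
    have h1 := neg_one_le_cos a
    have h2 := cos_le_one a
    constructor <;> nlinarith
  set A := arcsin (k * cos a) with hAd
  set B := arcsin (k * cos b) with hBd
  have hsA : sin A = k * cos a := sin_arcsin (hA a).1 (hA a).2
  have hsB : sin B = k * cos b := sin_arcsin (hA b).1 (hA b).2
  have hcA : cos A = √(1 - (k * cos a) ^ 2) := cos_arcsin _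
  have hcB : cos B = √(1 - (k * cos b) ^ 2) := cos_arcsin _
  have hAI : A ∈ Icc (-(π / 2)) (π / 2) := arcsin_mem_Icc _
  have hBI : B ∈ Icc (-(π / 2)) (π / 2) := arcsin_mem_Icc _
  have hAB : |A - B| ≤ π := by
    rw [abs_le]; constructor <;> linarith [hAI.1, hAI.2, hBI.1, hBI.2]
  have key : cos (chord k (a - b)) ≤ cos |A - B| := by
    rw [cos_abs, cos_chord hk hk1, cos_sub A B, hsA, hsB, hcA, hcB, cos_sub a b,
      ← Real.sqrt_mul (by nlinarith [(hA a).1, (hA a).2])]
    have h1 : 1 - k ^ 2 + k ^ 2 * (sin a * sin b)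
        ≤ √((1 - (k * cos a) ^ 2) * (1 - (k * cos b) ^ 2)) := by
      apply le_trans (le_abs_self _)
      apply Real.abs_le_sqrt
      have ta := sin_sq_add_cos_sq a
      have tb := sin_sq_add_cos_sq b
      have e1 : 1 - (k * cos a) ^ 2 = (1 - k ^ 2) + k ^ 2 * sin a ^ 2 := by
        linear_combination (-(k ^ 2)) * ta
      have e2 : 1 - (k * cos b) ^ 2 = (1 - k ^ 2) + k ^ 2 * sin b ^ 2 := by
        linear_combination (-(k ^ 2)) * tb
      rw [e1, e2]
      have h2 : 0 ≤ 1 - k ^ 2 := by nlinarith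
      nlinarith [mul_nonneg (mul_nonneg h2 (sq_nonneg k)) (sq_nonneg (sin a - sin b))]
    linarith
  exact (strictAntiOn_cos.le_iff_ge ⟨chord_nonneg hk _, chord_le_pi _ _⟩ ⟨abs_nonneg _, hAB⟩).mp key

theorem chord_le_abs {k : ℝ} (hk1 : k ≤ 1) (δ : ℝ) : chord k δ ≤ |δ| := by
  rcases le_total π |δ| with h | h
  · exact (chord_le_pi _ _).trans h
  · have h1 : |sin (δ / 2)| = sin (|δ| / 2) := by
      rcases abs_cases δ with ⟨e, _⟩ | ⟨e, _⟩
      · rw [e] at h ⊢
        exact abs_of_nonneg (sin_nonneg_of_nonneg_of_le_pi (by linarith) (by linarith))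
      · rw [e] at h ⊢
        have e2 : δ / 2 = -(-δ / 2) := by ring
        rw [e2, sin_neg, abs_neg]
        exact abs_of_nonneg (sin_nonneg_of_nonneg_of_le_pi (by linarith) (by linarith))
    unfold chord
    rw [h1]
    have h0 := abs_nonneg δ
    have h2 : 0 ≤ sin (|δ| / 2) := sin_nonneg_of_nonneg_of_le_pi (by linarith) (by linarith)
    have h3 : arcsin (k * sin (|δ| / 2)) ≤ arcsin (sin (|δ| / 2)) :=
      monotone_arcsin (by nlinarith)
    rw [arcsin_sin (by linarith [Real.pi_pos]) (by linarith)] at h3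
    linarith

theorem arcsin_lip {k : ℝ} (hk : 0 ≤ k) (hk1 : k ≤ 1) (a b : ℝ) :
    |arcsin (k * cos a) - arcsin (k * cos b)| ≤ |a - b| :=
  (arcsin_lip_chord hk hk1 a b).trans (chord_le_abs hk1 _)

section

variable {M : Type} [MetricSpace M] (S : OrientedSurface M)

/-- The boundary circle of the surface, without shortcuts as compared to the circle of radius
`arcsin k` in the unit sphere, parametrised by longitude. -/
def CapNoShortcut (k : ℝ) : Prop :=
  ∀ s t : ℝ, chord k (s - t) ≤ dist (S.boundary (s : AddCircle (2 * π)))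
    (S.boundary (t : AddCircle (2 * π)))

/-- extension of the function `arcsin (k cos (t - φ))` on the boundary -/
noncomputable def ext (k φ : ℝ) (z : M) : ℝ :=
  ⨅ t : ℝ, (arcsin (k * cos (t - φ)) + dist (S.boundary (t : AddCircle (2 * π))) z)

/-- cut off -/
noncomputable def sfun (k φ : ℝ) (z : M) : ℝ := min (ext S k φ z) (arcsin k)

theorem arcsin_ge {k : ℝ} (hk : 0 ≤ k) (a : ℝ) : -arcsin k ≤ arcsin (k * cos a) := by
  rw [← arcsin_neg]
  apply monotone_arcsin
  nlinarith [neg_one_le_cos a]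

theorem arcsin_le' {k : ℝ} (hk : 0 ≤ k) (a : ℝ) : arcsin (k * cos a) ≤ arcsin k := by
  apply monotone_arcsin
  nlinarith [cos_le_one a]

theorem ext_bdd {k : ℝ} (hk : 0 ≤ k) (φ : ℝ) (z : M) : BddBelow (Set.range fun t : ℝ =>
    (arcsin (k * cos (t - φ)) + dist (S.boundary (t : AddCircle (2 * π))) z)) := by
  refine ⟨-arcsin k, ?_⟩
  rintro _ ⟨t, rfl⟩
  have h1 := arcsin_ge hk (t - φ)
  have h2 := dist_nonneg (x := S.boundary (t : AddCircle (2 * π))) (y := z)
  show -arcsin k ≤ arcsin (k * cos (t - φ)) + dist (S.boundary (t : AddCircle (2 * π))) z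
  linarith

theorem ext_ge {k : ℝ} (hk : 0 ≤ k) (φ : ℝ) (z : M) : -arcsin k ≤ ext S k φ z := by
  unfold ext
  apply le_ciInf
  intro t
  have h1 := arcsin_ge hk (t - φ)
  have h2 := dist_nonneg (x := S.boundary (t : AddCircle (2 * π))) (y := z)
  linarith

theorem sfun_abs {k : ℝ} (hk : 0 ≤ k) (φ : ℝ) (z : M) : |sfun S k φ z| ≤ arcsin k := by
  have h0 : 0 ≤ arcsin k := arcsin_nonneg.mpr hk
  rw [abs_le]
  refine ⟨le_min (ext_ge S hk φ z) (by linarith), min_le_right _ _⟩

theorem ext_boundary {k : ℝ} (hk : 0 ≤ k) (hk1 : k ≤ 1) (hS : CapNoShortcut S k) (φ s : ℝ) :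
    ext S k φ (S.boundary (s : AddCircle (2 * π))) = arcsin (k * cos (s - φ)) := by
  unfold ext
  apply le_antisymm
  · refine (ciInf_le (ext_bdd S hk φ _) s).trans ?_
    simp
  · apply le_ciInf
    intro t
    have h1 := hS t s
    have h2 := arcsin_lip_chord hk hk1 (s - φ) (t - φ)
    have e : s - φ - (t - φ) = -(t - s) := by ring
    have e2 : chord k (-(t - s)) = chord k (t - s) := by
      unfold chord
      rw [neg_div, sin_neg, abs_neg]
    rw [e, e2] at h2
    have h3 := (abs_le.mp h2).2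
    linarith

theorem sfun_boundary {k : ℝ} (hk : 0 ≤ k) (hk1 : k ≤ 1) (hS : CapNoShortcut S k) (φ s : ℝ) :
    sfun S k φ (S.boundary (s : AddCircle (2 * π))) = arcsin (k * cos (s - φ)) := by
  unfold sfun
  rw [ext_boundary S hk hk1 hS]
  exact min_eq_left (arcsin_le' hk _)

theorem ext_lip {k : ℝ} (hk : 0 ≤ k) (hk1 : k ≤ 1) (φ φ' : ℝ) (x y : M) :
    ext S k φ x ≤ ext S k φ' y + (|φ - φ'| + dist x y) := by
  unfold ext
  rw [← sub_le_iff_le_add]
  apply le_ciInf
  intro t
  have h1 := ciInf_le (ext_bdd S hk φ x) t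
  have h2 := dist_triangle (S.boundary (t : AddCircle (2 * π))) y x
  rw [dist_comm y x] at h2
  have h3 := arcsin_lip hk hk1 (t - φ) (t - φ')
  have e : t - φ - (t - φ') = -(φ - φ') := by ring
  rw [e, abs_neg] at h3
  have h4 := (abs_le.mp h3).2
  linarith

theorem sfun_lip {k : ℝ} (hk : 0 ≤ k) (hk1 : k ≤ 1) (φ φ' : ℝ) (x y : M) :
    |sfun S k φ x - sfun S k φ' y| ≤ |φ - φ'| + dist x y := by
  have h1 := ext_lip S hk hk1 φ φ' x y
  have h2 := ext_lip S hk hk1 φ' φ y x
  rw [abs_sub_comm φ' φ, dist_comm y x] at h2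
  unfold sfun
  refine (abs_min_sub_min_le_max _ _ _ _).trans ?_
  apply max_le
  · rw [abs_le]; constructor <;> linarith
  · rw [sub_self, abs_zero]; positivity

theorem sfun_lip_z {k : ℝ} (hk : 0 ≤ k) (hk1 : k ≤ 1) (φ : ℝ) (x y : M) :
    |sfun S k φ x - sfun S k φ y| ≤ dist x y := by
  have := sfun_lip S hk hk1 φ φ x y
  simpa using this

/-- the function `h` of the equation -/
noncomputable def hz (k : ℝ) (z : M) (φ : ℝ) : ℝ := sin (sfun S k φ z)

theorem abs_sin_sub_sin_le (a b : ℝ) : |sin a - sin b| ≤ |a - b| := by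
  have h := abs_cos_sub_cos_le (π / 2 - a) (π / 2 - b)
  rw [cos_pi_div_two_sub, cos_pi_div_two_sub] at h
  refine h.trans (le_of_eq ?_)
  rw [← abs_neg]
  congr 1
  ring

theorem hz_lip {k : ℝ} (hk : 0 ≤ k) (hk1 : k ≤ 1) (φ φ' : ℝ) (x y : M) :
    |hz S k x φ - hz S k y φ'| ≤ |φ - φ'| + dist x y :=
  (abs_sin_sub_sin_le _ _).trans (sfun_lip S hk hk1 φ φ' x y)

theorem hz_sq_le {k : ℝ} (hk : 0 ≤ k) (hk1 : k ≤ 1) (z : M) (φ : ℝ) : hz S k z φ ^ 2 ≤ k ^ 2 := by
  have h1 := sfun_abs S hk φ z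
  have h2 := abs_le.mp h1
  have h3 := arcsin_le_pi_div_two k
  have hs : sin (arcsin k) = k := sin_arcsin (by linarith) hk1
  unfold hz
  have u : sin (sfun S k φ z) ≤ sin (arcsin k) :=
    sin_le_sin_of_le_of_le_pi_div_two (by linarith) h3 h2.2
  have l : sin (-arcsin k) ≤ sin (sfun S k φ z) :=
    sin_le_sin_of_le_of_le_pi_div_two (by linarith) (by linarith) h2.1
  rw [sin_neg] at l
  rw [hs] at u l
  exact sq_le_sq' l u

theorem hz_boundary {k : ℝ} (hk : 0 ≤ k) (hk1 : k ≤ 1) (hS : CapNoShortcut S k) (s φ : ℝ) :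
    hz S k (S.boundary (s : AddCircle (2 * π))) φ = k * cos (s - φ) := by
  unfold hz
  rw [sfun_boundary S hk hk1 hS]
  have h1 := neg_one_le_cos (s - φ)
  have h2 := cos_le_one (s - φ)
  exact sin_arcsin (by nlinarith) (by nlinarith)

theorem continuous_hz {k : ℝ} (hk : 0 ≤ k) (hk1 : k ≤ 1) (z : M) : Continuous (hz S k z) := by
  have : LipschitzWith 1 (hz S k z) := LipschitzWith.of_dist_le_mul fun φ φ' => by
    have := hz_lip S hk hk1 φ φ' z z
    simpa [Real.dist_eq] using this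
  exact this.continuous

end

end Pool.Agent.Helper83K9.Cap
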