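import Mathlib
import Pool.Agent.Helper83K9.Cap.Avg

/-! # The pointwise Jacobian inequality -/

set_option autoImplicit false

open Real MeasureTheory Set

namespace Pool.Agent.Helper83K9.Cap

section

variable {c β : ℝ} (hc : 0 < c)

include hc

/-- one row of the differentiated equation -/
theorem row {τ : ℝ} {G P : ℝ → ℝ} (hG : Nice G) (hP : Nice P)
    (E1 : Av c β (fun φ => CC c β φ * G φ) = 0) (E2 : Av c β (fun φ => SS c β φ * G φ) = 0)
    {ξ η : ℝ}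
    (D1 : Av c β (fun φ => CC c β φ * (P φ - (ξ * CC c β φ + η * SS c β φ))
      + 4 * τ * CC c β φ * CC c β φ * G φ * (ξ * CC c β φ + η * SS c β φ)) = 0)
    (D2 : Av c β (fun φ => SS c β φ * (P φ - (ξ * CC c β φ + η * SS c β φ))
      + 4 * τ * CC c β φ * SS c β φ * G φ * (ξ * CC c β φ + η * SS c β φ)) = 0) :
    Av c β (fun φ => CC c β φ * P φ) = ξ * (1 / 2 - τ * Av c β (fun φ => C3 c β φ * G φ))
        - η * τ * Av c β (fun φ => S3 c β φ * G φ) ∧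
      Av c β (fun φ => SS c β φ * P φ) = η * (1 / 2 + τ * Av c β (fun φ => C3 c β φ * G φ))
        - ξ * τ * Av c β (fun φ => S3 c β φ * G φ) := by
  set g := Av c β (fun φ => C3 c β φ * G φ) with hg
  set h := Av c β (fun φ => S3 c β φ * G φ) with hh
  obtain ⟨m1, m2, m3⟩ := moments1 (β := β) hc
  have nC := nice_CC (β := β) hc
  have nS := nice_SS (β := β) hc
  have nC3 := nice_C3 (β := β) hc
  have nS3 := nice_S3 (β := β) hc
  have cs := CC_sq_add_SS_sq (β := β) hc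
  constructor
  · have e : Av c β (fun φ => CC c β φ * (P φ - (ξ * CC c β φ + η * SS c β φ))
      + 4 * τ * CC c β φ * CC c β φ * G φ * (ξ * CC c β φ + η * SS c β φ))
      = Av c β (fun φ => (((((CC c β φ * P φ - ξ * CC c β φ ^ 2) - η * (CC c β φ * SS c β φ))
        + (3 * (τ * ξ)) * (CC c β φ * G φ)) + (τ * ξ) * (C3 c β φ * G φ))
        + (τ * η) * (SS c β φ * G φ)) + (τ * η) * (S3 c β φ * G φ)) := by
      apply Av_congr
      intro φ
      have h1 := cs φ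
      unfold C3 S3
      linear_combination (3 * (τ * ξ) * CC c β φ * G φ + τ * η * SS c β φ * G φ) * h1
    have n1 : Nice (fun φ => ξ * CC c β φ ^ 2) := (Nice.const _).mul (nC.pow 2)
    have n2 : Nice (fun φ => η * (CC c β φ * SS c β φ)) := (Nice.const _).mul (nC.mul nS)
    have n3 : Nice (fun φ => (3 * (τ * ξ)) * (CC c β φ * G φ)) := (Nice.const _).mul (nC.mul hG)
    have n4 : Nice (fun φ => (τ * ξ) * (C3 c β φ * G φ)) := (Nice.const _).mul (nC3.mul hG)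
    have n5 : Nice (fun φ => (τ * η) * (SS c β φ * G φ)) := (Nice.const _).mul (nS.mul hG)
    have n6 : Nice (fun φ => (τ * η) * (S3 c β φ * G φ)) := (Nice.const _).mul (nS3.mul hG)
    rw [e, Av_add hc ((((((nC.mul hP).sub n1).sub n2).add n3).add n4).add n5) n6,
      Av_add hc (((((nC.mul hP).sub n1).sub n2).add n3).add n4) n5,
      Av_add hc ((((nC.mul hP).sub n1).sub n2).add n3) n4,
      Av_add hc (((nC.mul hP).sub n1).sub n2) n3,
      Av_sub hc ((nC.mul hP).sub n1) n2, Av_sub hc (nC.mul hP) n1, Av_smul, Av_smul, Av_smul,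
      Av_smul, Av_smul, Av_smul, m1, m3, E1, E2, ← hg, ← hh] at D1
    linarith
  · have e : Av c β (fun φ => SS c β φ * (P φ - (ξ * CC c β φ + η * SS c β φ))
      + 4 * τ * CC c β φ * SS c β φ * G φ * (ξ * CC c β φ + η * SS c β φ))
      = Av c β (fun φ => (((((SS c β φ * P φ - ξ * (CC c β φ * SS c β φ)) - η * SS c β φ ^ 2)
        + (τ * ξ) * (SS c β φ * G φ)) + (τ * ξ) * (S3 c β φ * G φ))
        + (τ * η) * (CC c β φ * G φ)) - (τ * η) * (C3 c β φ * G φ)) := by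
      apply Av_congr
      intro φ
      have h1 := cs φ
      unfold C3 S3
      linear_combination (τ * ξ * SS c β φ * G φ + τ * η * CC c β φ * G φ) * h1
    have n1 : Nice (fun φ => η * SS c β φ ^ 2) := (Nice.const _).mul (nS.pow 2)
    have n2 : Nice (fun φ => ξ * (CC c β φ * SS c β φ)) := (Nice.const _).mul (nC.mul nS)
    have n3 : Nice (fun φ => (τ * ξ) * (SS c β φ * G φ)) := (Nice.const _).mul (nS.mul hG)
    have n4 : Nice (fun φ => (τ * ξ) * (S3 c β φ * G φ)) := (Nice.const _).mul (nS3.mul hG)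
    have n5 : Nice (fun φ => (τ * η) * (CC c β φ * G φ)) := (Nice.const _).mul (nC.mul hG)
    have n6 : Nice (fun φ => (τ * η) * (C3 c β φ * G φ)) := (Nice.const _).mul (nC3.mul hG)
    rw [e, Av_sub hc ((((((nS.mul hP).sub n2).sub n1).add n3).add n4).add n5) n6,
      Av_add hc (((((nS.mul hP).sub n2).sub n1).add n3).add n4) n5,
      Av_add hc ((((nS.mul hP).sub n2).sub n1).add n3) n4,
      Av_add hc (((nS.mul hP).sub n2).sub n1) n3,
      Av_sub hc ((nS.mul hP).sub n2) n1, Av_sub hc (nS.mul hP) n2, Av_smul, Av_smul, Av_smul,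
      Av_smul, Av_smul, Av_smul, m2, m3, E1, E2, ← hg, ← hh] at D2
    linarith

/-- The Jacobian inequality, in terms of averages. -/
theorem av_pointwise {τ : ℝ} (hτ : τ ^ 2 ≤ 1 / 2) {G P Q : ℝ → ℝ} (hG : Nice G) (hP : Nice P)
    (hQ : Nice Q) {δ : ℝ} (hδ : 0 < δ) (hδ' : ∀ φ, δ ≤ 1 - 2 * τ * CC c β φ * G φ - G φ ^ 2)
    (hPQ : ∀ φ, P φ ^ 2 + Q φ ^ 2 ≤ 1 - 2 * τ * CC c β φ * G φ - G φ ^ 2)
    (E1 : Av c β (fun φ => CC c β φ * G φ) = 0) (E2 : Av c β (fun φ => SS c β φ * G φ) = 0)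
    {ξ η ξ' η' : ℝ}
    (D1 : Av c β (fun φ => CC c β φ * (P φ - (ξ * CC c β φ + η * SS c β φ))
      + 4 * τ * CC c β φ * CC c β φ * G φ * (ξ * CC c β φ + η * SS c β φ)) = 0)
    (D2 : Av c β (fun φ => SS c β φ * (P φ - (ξ * CC c β φ + η * SS c β φ))
      + 4 * τ * CC c β φ * SS c β φ * G φ * (ξ * CC c β φ + η * SS c β φ)) = 0)
    (D3 : Av c β (fun φ => CC c β φ * (Q φ - (ξ' * CC c β φ + η' * SS c β φ))
      + 4 * τ * CC c β φ * CC c β φ * G φ * (ξ' * CC c β φ + η' * SS c β φ)) = 0)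
    (D4 : Av c β (fun φ => SS c β φ * (Q φ - (ξ' * CC c β φ + η' * SS c β φ))
      + 4 * τ * CC c β φ * SS c β φ * G φ * (ξ' * CC c β φ + η' * SS c β φ)) = 0) :
    ξ * η' - η * ξ' ≤ 1 := by
  have nC := nice_CC (β := β) hc
  have nS := nice_SS (β := β) hc
  have cs := CC_sq_add_SS_sq (β := β) hc
  obtain ⟨a1, a2⟩ := row hc hG hP E1 E2 D1 D2
  obtain ⟨b1, b2⟩ := row hc hG hQ E1 E2 D3 D4
  have hb := bessel3 (β := β) hc hG
  set g := Av c β (fun φ => C3 c β φ * G φ) with hg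
  set h := Av c β (fun φ => S3 c β φ * G φ) with hh
  set s := Av c β (fun φ => G φ ^ 2) with hs
  set M11 := Av c β (fun φ => CC c β φ * P φ) with hM11
  set M21 := Av c β (fun φ => SS c β φ * P φ) with hM21
  set M12 := Av c β (fun φ => CC c β φ * Q φ) with hM12
  set M22 := Av c β (fun φ => SS c β φ * Q φ) with hM22
  have nW : Nice (fun φ => 1 - 2 * τ * CC c β φ * G φ - G φ ^ 2) :=
    ((Nice.const 1).sub (((Nice.const (2 * τ)).mul nC).mul hG)).sub (hG.pow 2)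
  have hW : Av c β (fun φ => 1 - 2 * τ * CC c β φ * G φ - G φ ^ 2) = 1 - s := by
    have e : Av c β (fun φ => 1 - 2 * τ * CC c β φ * G φ - G φ ^ 2)
        = Av c β (fun φ => (1 - (2 * τ) * (CC c β φ * G φ)) - G φ ^ 2) :=
      Av_congr (fun φ => by ring)
    rw [e, Av_sub hc ((Nice.const 1).sub ((Nice.const (2 * τ)).mul (nC.mul hG))) (hG.pow 2),
      Av_sub hc (Nice.const 1) ((Nice.const (2 * τ)).mul (nC.mul hG)), Av_smul, E1, Av_one hc]
    simp [hs]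
  have hs1 : δ ≤ 1 - s := by
    rw [← hW]
    have := Av_mono (β := β) hc (Nice.const δ) nW hδ'
    rwa [Av_const hc] at this
  have hM : 4 * (M11 * M22 - M12 * M21) ≤ 1 - s := by
    have n1 : Nice (fun φ => CC c β φ * P φ + SS c β φ * Q φ) := (nC.mul hP).add (nS.mul hQ)
    have n2 : Nice (fun φ => SS c β φ * P φ - CC c β φ * Q φ) := (nS.mul hP).sub (nC.mul hQ)
    have h1 := Av_sq_le (β := β) hc n1
    have h2 := Av_sq_le (β := β) hc n2
    rw [Av_add hc (nC.mul hP) (nS.mul hQ), ← hM11, ← hM22] at h1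
    rw [Av_sub hc (nS.mul hP) (nC.mul hQ), ← hM21, ← hM12] at h2
    have h3 : Av c β (fun φ => (CC c β φ * P φ + SS c β φ * Q φ) ^ 2)
        + Av c β (fun φ => (SS c β φ * P φ - CC c β φ * Q φ) ^ 2) ≤ 1 - s := by
      rw [← Av_add hc (n1.pow 2) (n2.pow 2), ← hW]
      apply Av_mono hc ((n1.pow 2).add (n2.pow 2)) nW
      intro φ
      have e : (CC c β φ * P φ + SS c β φ * Q φ) ^ 2 + (SS c β φ * P φ - CC c β φ * Q φ) ^ 2
          = (CC c β φ ^ 2 + SS c β φ ^ 2) * (P φ ^ 2 + Q φ ^ 2) := by ring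
      rw [e, cs φ, one_mul]
      exact hPQ φ
    nlinarith [sq_nonneg (M11 - M22), sq_nonneg (M12 + M21)]
  have hdet : M11 * M22 - M12 * M21 = (1 / 4 - τ ^ 2 * (g ^ 2 + h ^ 2)) * (ξ * η' - η * ξ') := by
    rw [a1, a2, b1, b2]; ring
  have hq : (1 - s) / 4 ≤ 1 / 4 - τ ^ 2 * (g ^ 2 + h ^ 2) := by
    have h0 : 0 ≤ g ^ 2 + h ^ 2 := by positivity
    nlinarith [mul_le_mul_of_nonneg_right hτ h0]
  by_contra hlt
  push Not at hlt
  have h1 : (1 - s) / 4 < (1 / 4 - τ ^ 2 * (g ^ 2 + h ^ 2)) * (ξ * η' - η * ξ') := by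
    have h2 : 0 < (1 - s) / 4 := by linarith
    calc (1 - s) / 4 = (1 - s) / 4 * 1 := by ring
      _ < (1 - s) / 4 * (ξ * η' - η * ξ') := mul_lt_mul_of_pos_left hlt h2
      _ ≤ _ := mul_le_mul_of_nonneg_right hq (by linarith)
  linarith

end

/-- the linear function `X · v` -/
noncomputable def lin (x1 x2 φ : ℝ) : ℝ := x1 * cos φ + x2 * sin φ

/-- the `i`-th component of `v` -/
noncomputable def vv (i : Fin 2) (φ : ℝ) : ℝ := if i = 0 then cos φ else sin φ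

/-- the integrand of the equation -/
noncomputable def eqn (h : ℝ → ℝ) (x1 x2 φ : ℝ) : ℝ :=
  (h φ - lin x1 x2 φ) / (1 - lin x1 x2 φ ^ 2) ^ 2

/-- the integrand of the differentiated equation -/
noncomputable def deqn (h p : ℝ → ℝ) (x1 x2 ξ1 ξ2 φ : ℝ) : ℝ :=
  (p φ - lin ξ1 ξ2 φ) / (1 - lin x1 x2 φ ^ 2) ^ 2
    + 4 * lin x1 x2 φ * (h φ - lin x1 x2 φ) * lin ξ1 ξ2 φ / (1 - lin x1 x2 φ ^ 2) ^ 3

theorem exists_polar (x1 x2 : ℝ) : ∃ R β : ℝ, 0 ≤ R ∧ x1 = R * cos β ∧ x2 = R * sin β := by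
  refine ⟨‖(⟨x1, x2⟩ : ℂ)‖, Complex.arg ⟨x1, x2⟩, norm_nonneg _, ?_, ?_⟩
  · exact (Complex.norm_mul_cos_arg ⟨x1, x2⟩).symm
  · exact (Complex.norm_mul_sin_arg ⟨x1, x2⟩).symm

theorem Nice.comb {f : ℝ → ℝ} (hf : Nice f) (i : Fin 2) : Nice (fun φ => vv i φ * f φ) := by
  have h1 : Nice (vv i) := by
    unfold vv
    by_cases hi : i = 0
    · simp only [hi, if_true]
      exact ⟨continuous_cos.measurable, 1, fun x => abs_cos_le_one x⟩
    · simp only [hi, if_false]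
      exact ⟨continuous_sin.measurable, 1, fun x => abs_sin_le_one x⟩
  exact h1.mul hf

theorem nice_lin (x1 x2 : ℝ) : Nice (lin x1 x2) :=
  ((Nice.const x1).mul ⟨continuous_cos.measurable, 1, fun x => abs_cos_le_one x⟩).add
    ((Nice.const x2).mul ⟨continuous_sin.measurable, 1, fun x => abs_sin_le_one x⟩)

theorem lin_sq_le (x1 x2 φ : ℝ) : lin x1 x2 φ ^ 2 ≤ x1 ^ 2 + x2 ^ 2 := by
  unfold lin
  have h := sin_sq_add_cos_sq φ
  nlinarith [sq_nonneg (x1 * sin φ - x2 * cos φ)]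

theorem nice_inv {f : ℝ → ℝ} (hf : Measurable f) {d : ℝ} (hd : 0 < d) (h : ∀ x, d ≤ f x) :
    Nice (fun x => (f x)⁻¹) := by
  refine ⟨hf.inv, d⁻¹, fun x => ?_⟩
  have := hd.trans_le (h x)
  rw [abs_of_pos (inv_pos.mpr this)]
  exact inv_anti₀ hd (h x)

theorem nice_winv {x1 x2 : ℝ} (hR : x1 ^ 2 + x2 ^ 2 ≤ 1 / 3) :
    Nice (fun φ => (1 - lin x1 x2 φ ^ 2)⁻¹) := by
  apply nice_inv ((Nice.const 1).sub ((nice_lin x1 x2).pow 2)).1 (d := 2 / 3) (by norm_num)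
  intro φ
  have := lin_sq_le x1 x2 φ
  linarith

theorem nice_eqn {x1 x2 : ℝ} (hR : x1 ^ 2 + x2 ^ 2 ≤ 1 / 3) {h : ℝ → ℝ} (hh : Nice h) :
    Nice (eqn h x1 x2) := by
  have h1 := (hh.sub (nice_lin x1 x2)).mul ((nice_winv hR).pow 2)
  have e : eqn h x1 x2 = fun φ => (h φ - lin x1 x2 φ) * (1 - lin x1 x2 φ ^ 2)⁻¹ ^ 2 := by
    funext φ
    unfold eqn
    rw [div_eq_mul_inv, inv_pow]
  rw [e]
  exact h1

theorem nice_deqn {x1 x2 : ℝ} (hR : x1 ^ 2 + x2 ^ 2 ≤ 1 / 3) {h p : ℝ → ℝ} (hh : Nice h)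
    (hp : Nice p) (ξ1 ξ2 : ℝ) : Nice (deqn h p x1 x2 ξ1 ξ2) := by
  have h1 := ((hp.sub (nice_lin ξ1 ξ2)).mul ((nice_winv hR).pow 2)).add
    (((((Nice.const 4).mul (nice_lin x1 x2)).mul (hh.sub (nice_lin x1 x2))).mul
      (nice_lin ξ1 ξ2)).mul ((nice_winv hR).pow 3))
  have e : deqn h p x1 x2 ξ1 ξ2 = fun φ => (p φ - lin ξ1 ξ2 φ) * (1 - lin x1 x2 φ ^ 2)⁻¹ ^ 2
    + 4 * lin x1 x2 φ * (h φ - lin x1 x2 φ) * lin ξ1 ξ2 φ * (1 - lin x1 x2 φ ^ 2)⁻¹ ^ 3 := by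
    funext φ
    unfold deqn
    rw [div_eq_mul_inv, inv_pow, inv_pow, ← div_eq_mul_inv _ ((1 - lin x1 x2 φ ^ 2) ^ 3)]
  rw [e]
  exact h1

/-- from Cartesian to radial coordinates -/
theorem comb_zero {f : ℝ → ℝ} (hf : Nice f) (E : ∀ i, ∫ φ in (0 : ℝ)..(2 * π), vv i φ * f φ = 0)
    (β r : ℝ) : (∫ φ in (0 : ℝ)..(2 * π), r * (cos (φ - β) * f φ) = 0) ∧
      (∫ φ in (0 : ℝ)..(2 * π), r * (sin (φ - β) * f φ) = 0) := by
  have i0 := (hf.comb 0).intervalIntegrable 0 (2 * π)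
  have i1 := (hf.comb 1).intervalIntegrable 0 (2 * π)
  have E0 := E 0
  have E1 := E 1
  constructor
  · have e : (fun φ => r * (cos (φ - β) * f φ)) = fun φ => (r * cos β) * (vv 0 φ * f φ)
        + (r * sin β) * (vv 1 φ * f φ) := by
      funext φ
      rw [cos_sub]
      simp [vv]
      ring
    rw [e, intervalIntegral.integral_add (i0.const_mul _) (i1.const_mul _),
      intervalIntegral.integral_const_mul, intervalIntegral.integral_const_mul, E0, E1]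
    ring
  · have e : (fun φ => r * (sin (φ - β) * f φ)) = fun φ => (-(r * sin β)) * (vv 0 φ * f φ)
        + (r * cos β) * (vv 1 φ * f φ) := by
      funext φ
      rw [sin_sub]
      simp [vv]
      ring
    rw [e, intervalIntegral.integral_add (i0.const_mul _) (i1.const_mul _),
      intervalIntegral.integral_const_mul, intervalIntegral.integral_const_mul, E0, E1]
    ring

/-- The Jacobian inequality. -/
theorem pointwise {x1 x2 : ℝ} (hR : x1 ^ 2 + x2 ^ 2 ≤ 1 / 3) {h p q : ℝ → ℝ} (nh : Nice h)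
    (np : Nice p) (nq : Nice q) {κ : ℝ} (hκ : κ < 1) (hh : ∀ φ, h φ ^ 2 ≤ κ)
    (hpq : ∀ φ, p φ ^ 2 + q φ ^ 2 ≤ 1 - h φ ^ 2)
    (E : ∀ i, ∫ φ in (0 : ℝ)..(2 * π), vv i φ * eqn h x1 x2 φ = 0) {ξ1 ξ2 ζ1 ζ2 : ℝ}
    (D : ∀ i, ∫ φ in (0 : ℝ)..(2 * π), vv i φ * deqn h p x1 x2 ξ1 ξ2 φ = 0)
    (D' : ∀ i, ∫ φ in (0 : ℝ)..(2 * π), vv i φ * deqn h q x1 x2 ζ1 ζ2 φ = 0) :
    ξ1 * ζ2 - ξ2 * ζ1 ≤ √(1 - (x1 ^ 2 + x2 ^ 2)) := by
  obtain ⟨R, β, hR0, hx1, hx2⟩ := exists_polar x1 x2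
  have hRR : x1 ^ 2 + x2 ^ 2 = R ^ 2 := by
    rw [hx1, hx2]
    have := sin_sq_add_cos_sq β
    linear_combination R ^ 2 * this
  have hR' := hR
  rw [hRR] at hR'
  rw [hRR]
  set c := √(1 - R ^ 2) with hcdef
  have hc : 0 < c := Real.sqrt_pos.mpr (by linarith)
  have hc2 : c ^ 2 = 1 - R ^ 2 := Real.sq_sqrt (by linarith)
  have hlin : ∀ φ, lin x1 x2 φ = R * cos (φ - β) := by
    intro φ
    unfold lin
    rw [hx1, hx2, cos_sub]; ring
  have hr2 : ∀ φ, 1 - lin x1 x2 φ ^ 2 = rr c β φ ^ 2 := by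
    intro φ
    rw [rr_sq hc, hlin]
    unfold rho2
    rw [hc2]
    have := sin_sq_add_cos_sq (φ - β)
    linear_combination (-1 : ℝ) * this
  have hrc : ∀ φ, c ≤ rr c β φ := by
    intro φ
    apply le_of_sq_le_sq _ (rr_pos hc φ).le
    rw [← hr2, hc2, hlin]
    have := sin_sq_add_cos_sq (φ - β)
    nlinarith [mul_nonneg (sq_nonneg R) (sq_nonneg (sin (φ - β)))]
  have hr1 : ∀ φ, rr c β φ ^ 2 ≤ 1 := by
    intro φ
    rw [← hr2]
    nlinarith [sq_nonneg (lin x1 x2 φ)]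
  have nri : Nice (fun φ => (rr c β φ)⁻¹) := nice_inv (continuous_rr hc).measurable hc hrc
  set G : ℝ → ℝ := fun φ => (h φ - lin x1 x2 φ) * (rr c β φ)⁻¹ with hG
  set P : ℝ → ℝ := fun φ => p φ * (rr c β φ)⁻¹ with hP
  set Q : ℝ → ℝ := fun φ => q φ * (rr c β φ)⁻¹ with hQ
  have nG : Nice G := (nh.sub (nice_lin x1 x2)).mul nri
  have nP : Nice P := np.mul nri
  have nQ : Nice Q := nq.mul nri
  set τ := R / c with hτ
  have hτ2 : τ ^ 2 ≤ 1 / 2 := by
    rw [hτ, div_pow, hc2, div_le_iff₀ (by linarith)]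
    linarith
  have hW : ∀ φ, 1 - 2 * τ * CC c β φ * G φ - G φ ^ 2 = (1 - h φ ^ 2) * (rr c β φ)⁻¹ ^ 2 := by
    intro φ
    have h1 := (rr_pos (β := β) hc φ).ne'
    have h2 := hr2 φ
    simp only [hG, hτ, CC]
    rw [hlin] at h2 ⊢
    have : (1 : ℝ) = rr c β φ ^ 2 * (rr c β φ)⁻¹ ^ 2 := by field_simp
    have hc0 := hc.ne'
    field_simp
    linear_combination (-1 : ℝ) * h2
  have hδ : ∀ φ, 1 - κ ≤ 1 - 2 * τ * CC c β φ * G φ - G φ ^ 2 := by
    intro φ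
    rw [hW]
    have h1 := hr1 φ
    have h2 := hh φ
    have h3 : 1 ≤ (rr c β φ)⁻¹ ^ 2 := by
      rw [inv_pow]
      exact (one_le_inv₀ (by have := rr_pos (β := β) hc φ; positivity)).mpr h1
    nlinarith
  have hPQ : ∀ φ, P φ ^ 2 + Q φ ^ 2 ≤ 1 - 2 * τ * CC c β φ * G φ - G φ ^ 2 := by
    intro φ
    rw [hW]
    simp only [hP, hQ]
    rw [mul_pow, mul_pow, ← add_mul]
    exact mul_le_mul_of_nonneg_right (hpq φ) (sq_nonneg _)
  have hE := comb_zero (nice_eqn hR nh) E β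
  have hD := comb_zero (nice_deqn hR nh np ξ1 ξ2) D β
  have hD' := comb_zero (nice_deqn hR nh nq ζ1 ζ2) D' β
  have E1 : Av c β (fun φ => CC c β φ * G φ) = 0 := by
    have e : (fun φ => CC c β φ * G φ * aa c β φ)
        = fun φ => (c ^ 2 / (2 * π)) * (cos (φ - β) * eqn h x1 x2 φ) := by
      funext φ
      have h1 := (rr_pos (β := β) hc φ).ne'
      unfold eqn aa CC
      rw [← rr_sq hc, hr2]
      simp only [hG]
      field_simp
    unfold Av
    rw [e]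
    exact (hE _).1
  have E2 : Av c β (fun φ => SS c β φ * G φ) = 0 := by
    have e : (fun φ => SS c β φ * G φ * aa c β φ)
        = fun φ => (c / (2 * π)) * (sin (φ - β) * eqn h x1 x2 φ) := by
      funext φ
      have h1 := (rr_pos (β := β) hc φ).ne'
      unfold eqn aa SS
      rw [← rr_sq hc, hr2]
      simp only [hG]
      field_simp
    unfold Av
    rw [e]
    exact (hE _).2
  have hlin2 : ∀ a b φ, lin a b φ = rr c β φ * (((cos β * a + sin β * b) / c) * CC c β φ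
      + (-(sin β) * a + cos β * b) * SS c β φ) := by
    intro a b φ
    have h1 := (rr_pos (β := β) hc φ).ne'
    have hc0 := hc.ne'
    unfold CC SS
    have e1 : φ = (φ - β) + β := by ring
    have h3 := sin_sq_add_cos_sq β
    have e2 : cos φ = cos (φ - β) * cos β - sin (φ - β) * sin β := by
      conv_lhs => rw [e1]
      exact cos_add _ _
    have e3 : sin φ = sin (φ - β) * cos β + cos (φ - β) * sin β := by
      conv_lhs => rw [e1]
      exact sin_add _ _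
    unfold lin
    rw [e2, e3]
    field_simp
    ring
  have key1 : ∀ (u a b : ℝ) (φ : ℝ), CC c β φ * (u * (rr c β φ)⁻¹ -
        ((cos β * a + sin β * b) / c * CC c β φ + (-(sin β) * a + cos β * b) * SS c β φ))
      + 4 * τ * CC c β φ * CC c β φ * G φ * ((cos β * a + sin β * b) / c * CC c β φ
        + (-(sin β) * a + cos β * b) * SS c β φ)
      = (c * cos (φ - β) * (rr c β φ)⁻¹ ^ 2) * ((u - lin a b φ)
        + 4 * lin x1 x2 φ * (h φ - lin x1 x2 φ) * lin a b φ * (rr c β φ)⁻¹ ^ 2) := by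
    intro u a b φ
    have h1 := (rr_pos (β := β) hc φ).ne'
    have hc0 := hc.ne'
    rw [hlin2 a b φ]
    set w := (cos β * a + sin β * b) / c * CC c β φ + (-(sin β) * a + cos β * b) * SS c β φ
    simp only [hG, hτ]
    rw [hlin]
    unfold CC
    field_simp
  have key2 : ∀ (u a b : ℝ) (φ : ℝ), SS c β φ * (u * (rr c β φ)⁻¹ -
        ((cos β * a + sin β * b) / c * CC c β φ + (-(sin β) * a + cos β * b) * SS c β φ))
      + 4 * τ * CC c β φ * SS c β φ * G φ * ((cos β * a + sin β * b) / c * CC c β φ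
        + (-(sin β) * a + cos β * b) * SS c β φ)
      = (sin (φ - β) * (rr c β φ)⁻¹ ^ 2) * ((u - lin a b φ)
        + 4 * lin x1 x2 φ * (h φ - lin x1 x2 φ) * lin a b φ * (rr c β φ)⁻¹ ^ 2) := by
    intro u a b φ
    have h1 := (rr_pos (β := β) hc φ).ne'
    have hc0 := hc.ne'
    rw [hlin2 a b φ]
    set w := (cos β * a + sin β * b) / c * CC c β φ + (-(sin β) * a + cos β * b) * SS c β φ
    simp only [hG, hτ]
    rw [hlin]
    unfold CC SS
    field_simp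
  have hdeq : ∀ (u : ℝ → ℝ) (a b φ : ℝ), ((u φ - lin a b φ)
        + 4 * lin x1 x2 φ * (h φ - lin x1 x2 φ) * lin a b φ * (rr c β φ)⁻¹ ^ 2)
        = deqn h u x1 x2 a b φ * (rr c β φ ^ 2) ^ 2 := by
    intro u a b φ
    have h1 := (rr_pos (β := β) hc φ).ne'
    unfold deqn
    rw [hr2]
    field_simp
  have e1 : ∀ (u : ℝ → ℝ) (a b : ℝ), (fun φ => (CC c β φ * (u φ * (rr c β φ)⁻¹ -
        ((cos β * a + sin β * b) / c * CC c β φ + (-(sin β) * a + cos β * b) * SS c β φ))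
      + 4 * τ * CC c β φ * CC c β φ * G φ * ((cos β * a + sin β * b) / c * CC c β φ
        + (-(sin β) * a + cos β * b) * SS c β φ)) * aa c β φ)
      = fun φ => (c ^ 2 / (2 * π)) * (cos (φ - β) * deqn h u x1 x2 a b φ) := by
    intro u a b
    funext φ
    have h1 := (rr_pos (β := β) hc φ).ne'
    rw [key1, hdeq]
    unfold aa
    rw [← rr_sq hc]
    field_simp
  have e2 : ∀ (u : ℝ → ℝ) (a b : ℝ), (fun φ => (SS c β φ * (u φ * (rr c β φ)⁻¹ -
        ((cos β * a + sin β * b) / c * CC c β φ + (-(sin β) * a + cos β * b) * SS c β φ))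
      + 4 * τ * CC c β φ * SS c β φ * G φ * ((cos β * a + sin β * b) / c * CC c β φ
        + (-(sin β) * a + cos β * b) * SS c β φ)) * aa c β φ)
      = fun φ => (c / (2 * π)) * (sin (φ - β) * deqn h u x1 x2 a b φ) := by
    intro u a b
    funext φ
    have h1 := (rr_pos (β := β) hc φ).ne'
    rw [key2, hdeq]
    unfold aa
    rw [← rr_sq hc]
    field_simp
  have hfin := av_pointwise hc hτ2 nG nP nQ (by linarith : 0 < 1 - κ) hδ hPQ E1 E2
    (ξ := (cos β * ξ1 + sin β * ξ2) / c) (η := -(sin β) * ξ1 + cos β * ξ2)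
    (ξ' := (cos β * ζ1 + sin β * ζ2) / c) (η' := -(sin β) * ζ1 + cos β * ζ2)
    (by unfold Av; simp only [hP]; rw [e1 p ξ1 ξ2]; exact (hD _).1)
    (by unfold Av; simp only [hP]; rw [e2 p ξ1 ξ2]; exact (hD _).2)
    (by unfold Av; simp only [hQ]; rw [e1 q ζ1 ζ2]; exact (hD' _).1)
    (by unfold Av; simp only [hQ]; rw [e2 q ζ1 ζ2]; exact (hD' _).2)
  have h3 := sin_sq_add_cos_sq β
  have h4 : (cos β * ξ1 + sin β * ξ2) / c * (-(sin β) * ζ1 + cos β * ζ2)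
      - (-(sin β) * ξ1 + cos β * ξ2) * ((cos β * ζ1 + sin β * ζ2) / c)
      = (ξ1 * ζ2 - ξ2 * ζ1) / c := by
    field_simp
    linear_combination (ξ1 * ζ2 - ξ2 * ζ1) * h3
  rw [h4, div_le_one hc] at hfin
  exact hfin

end Pool.Agent.Helper83K9.Cap
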