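import Mathlib
import Pool.Agent.Helper83K9.Cap.Pointwise

/-! # The estimator: a variational inequality on the disc -/

set_option autoImplicit false

open Real MeasureTheory Set

namespace Pool.Agent.Helper83K9.Cap

/-- minus the integrand of the equation, at a single angle -/
noncomputable def ff (η y : ℝ) : ℝ := (y - η) / (1 - y ^ 2) ^ 2

/-- its primitive -/
noncomputable def jj (η y : ℝ) : ℝ :=
  1 / (2 * (1 - y ^ 2)) - η * ((y / (1 - y ^ 2) + log ((1 + y) / (1 - y)) / 2) / 2)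

theorem sq_lt_one_of {y : ℝ} (hy : y ∈ Ioo (-1 : ℝ) 1) : 0 < 1 - y ^ 2 := by
  obtain ⟨h1, h2⟩ := hy
  nlinarith

theorem hasDerivAt_ff (η : ℝ) {y : ℝ} (hy : y ∈ Ioo (-1 : ℝ) 1) :
    HasDerivAt (ff η) ((1 + 3 * y ^ 2 - 4 * y * η) / (1 - y ^ 2) ^ 3) y := by
  have h0 := sq_lt_one_of hy
  have h1 : HasDerivAt (fun y : ℝ => y - η) 1 y := (hasDerivAt_id' y).sub_const η
  have h2 : HasDerivAt (fun y : ℝ => (1 - y ^ 2) ^ 2) (2 * (1 - y ^ 2) * (-(2 * y))) y := by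
    have := ((hasDerivAt_pow 2 y).const_sub 1).fun_pow 2
    refine this.congr_deriv ?_
    push_cast; ring
  have h3 := h1.fun_div h2 (by positivity)
  refine h3.congr_deriv ?_
  field_simp
  ring

theorem hasDerivAt_jj (η : ℝ) {y : ℝ} (hy : y ∈ Ioo (-1 : ℝ) 1) :
    HasDerivAt (jj η) (ff η y) y := by
  have h0 := sq_lt_one_of hy
  have hp : 0 < 1 + y := by linarith [hy.1]
  have hm : 0 < 1 - y := by linarith [hy.2]
  have h1 : HasDerivAt (fun y : ℝ => 1 - y ^ 2) (-(2 * y)) y := by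
    have := (hasDerivAt_pow 2 y).const_sub 1
    refine this.congr_deriv ?_
    push_cast; ring
  have h2 : HasDerivAt (fun y : ℝ => 1 / (2 * (1 - y ^ 2))) (y / (1 - y ^ 2) ^ 2) y := by
    have := (hasDerivAt_const y (1 : ℝ)).fun_div (h1.const_mul 2) (by positivity)
    refine this.congr_deriv ?_
    field_simp
    ring
  have h3 : HasDerivAt (fun y : ℝ => y / (1 - y ^ 2)) ((1 + y ^ 2) / (1 - y ^ 2) ^ 2) y := by
    have := (hasDerivAt_id' y).fun_div h1 h0.ne'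
    refine this.congr_deriv ?_
    field_simp
    ring
  have h4 : HasDerivAt (fun y : ℝ => log ((1 + y) / (1 - y))) (2 / (1 - y ^ 2)) y := by
    have h5 : HasDerivAt (fun y : ℝ => (1 + y) / (1 - y)) (2 / (1 - y) ^ 2) y := by
      have := ((hasDerivAt_id' y).const_add 1).fun_div ((hasDerivAt_id' y).const_sub 1) hm.ne'
      refine this.congr_deriv ?_
      field_simp
      ring
    have := h5.log (by positivity)
    refine this.congr_deriv ?_
    have e : 1 - y ^ 2 = (1 + y) * (1 - y) := by ring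
    rw [e]
    field_simp
  have h6 := h2.fun_sub (((h3.fun_add (h4.div_const 2)).div_const 2).const_mul η)
  refine h6.congr_deriv ?_
  unfold ff
  field_simp
  ring

/-- strong monotonicity -/
theorem ff_mono {η : ℝ} (hη : η ^ 2 ≤ 1 / 3) {y z : ℝ} (hy : y ∈ Ioo (-1 : ℝ) 1)
    (hz : z ∈ Ioo (-1 : ℝ) 1) : 5 / 9 * (z - y) ^ 2 ≤ (ff η z - ff η y) * (z - y) := by
  have hcont : ContinuousOn (ff η) (Ioo (-1 : ℝ) 1) := fun x hx =>
    (hasDerivAt_ff η hx).continuousAt.continuousWithinAt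
  have hdiff : DifferentiableOn ℝ (ff η) (interior (Ioo (-1 : ℝ) 1)) := by
    rw [interior_Ioo]
    exact fun x hx => (hasDerivAt_ff η hx).differentiableAt.differentiableWithinAt
  have hder : ∀ x ∈ interior (Ioo (-1 : ℝ) 1), 5 / 9 ≤ deriv (ff η) x := by
    rw [interior_Ioo]
    intro x hx
    rw [(hasDerivAt_ff η hx).deriv]
    have h0 := sq_lt_one_of hx
    rw [le_div_iff₀ (by positivity)]
    have h1 : (1 - x ^ 2) ^ 3 ≤ 1 := pow_le_one₀ h0.le (by nlinarith [sq_nonneg x])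
    nlinarith [sq_nonneg (3 * x - 2 * η)]
  have key : ∀ a ∈ Ioo (-1 : ℝ) 1, ∀ b ∈ Ioo (-1 : ℝ) 1, a ≤ b →
      5 / 9 * (b - a) ≤ ff η b - ff η a :=
    (convex_Ioo (-1 : ℝ) 1).mul_sub_le_image_sub_of_le_deriv hcont hdiff hder
  rcases le_total y z with h | h
  · have := key y hy z hz h
    nlinarith
  · have := key z hz y hy h
    nlinarith

theorem mem_Ioo_of {y : ℝ} (hy : y ^ 2 ≤ 1 / 3) : y ∈ Ioo (-1 : ℝ) 1 := by
  constructor <;> nlinarith

theorem mem_Icc_iff_sq {y : ℝ} : y ∈ Icc (-√(1 / 3)) √(1 / 3) ↔ y ^ 2 ≤ 1 / 3 := by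
  rw [mem_Icc]
  constructor
  · intro h
    have := Real.sq_sqrt (show (0 : ℝ) ≤ 1 / 3 by norm_num)
    nlinarith [Real.sqrt_nonneg (1 / 3 : ℝ)]
  · intro h
    have := Real.abs_le_sqrt h
    exact abs_le.mp this

/-- Lipschitz bound in `y` -/
theorem ff_lip {η : ℝ} (hη : η ^ 2 ≤ 1 / 3) {y z : ℝ} (hy : y ^ 2 ≤ 1 / 3)
    (hz : z ^ 2 ≤ 1 / 3) : |ff η z - ff η y| ≤ 12 * |z - y| := by
  have key := (convex_Icc (-√(1 / 3)) √(1 / 3)).norm_image_sub_le_of_norm_hasDerivWithin_le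
    (f := ff η) (f' := fun y => (1 + 3 * y ^ 2 - 4 * y * η) / (1 - y ^ 2) ^ 3) (C := 12)
    (x := y) (y := z)
    (fun x hx => (hasDerivAt_ff η (mem_Ioo_of (mem_Icc_iff_sq.mp hx))).hasDerivWithinAt)
    (fun x hx => by
      have hx' := mem_Icc_iff_sq.mp hx
      have h0 : 2 / 3 ≤ 1 - x ^ 2 := by linarith
      have h1 : (8 / 27 : ℝ) ≤ (1 - x ^ 2) ^ 3 := by
        calc (8 / 27 : ℝ) = (2 / 3) ^ 3 := by norm_num
          _ ≤ _ := pow_le_pow_left₀ (by norm_num) h0 3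
      have h2 : |1 + 3 * x ^ 2 - 4 * x * η| ≤ 10 / 3 := by
        rw [abs_le]
        constructor <;> nlinarith [sq_nonneg (x - η), sq_nonneg (x + η)]
      rw [Real.norm_eq_abs, abs_div, abs_of_pos (by positivity : 0 < (1 - x ^ 2) ^ 3),
        div_le_iff₀ (by positivity)]
      linarith) (mem_Icc_iff_sq.mpr hy) (mem_Icc_iff_sq.mpr hz)
  simpa [Real.norm_eq_abs] using key

theorem ff_lip' {η η' : ℝ} {y : ℝ} (hy : y ^ 2 ≤ 1 / 3) :
    |ff η y - ff η' y| ≤ 9 / 4 * |η - η'| := by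
  have h0 : 2 / 3 ≤ 1 - y ^ 2 := by linarith
  have e : ff η y - ff η' y = -(η - η') / (1 - y ^ 2) ^ 2 := by
    unfold ff; ring
  rw [e, abs_div, abs_neg, abs_of_pos (by positivity : 0 < (1 - y ^ 2) ^ 2),
    div_le_iff₀ (by positivity)]
  have h1 : (4 / 9 : ℝ) ≤ (1 - y ^ 2) ^ 2 := by
    calc (4 / 9 : ℝ) = (2 / 3) ^ 2 := by norm_num
      _ ≤ _ := pow_le_pow_left₀ (by norm_num) h0 2
  nlinarith [abs_nonneg (η - η')]

theorem ff_bound {η y : ℝ} (hη : η ^ 2 ≤ 1 / 3) (hy : y ^ 2 ≤ 1 / 3) : |ff η y| ≤ 3 := by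
  have h0 : 2 / 3 ≤ 1 - y ^ 2 := by linarith
  unfold ff
  rw [abs_div, abs_of_pos (by positivity : 0 < (1 - y ^ 2) ^ 2), div_le_iff₀ (by positivity)]
  have h1 : (4 / 9 : ℝ) ≤ (1 - y ^ 2) ^ 2 := by
    calc (4 / 9 : ℝ) = (2 / 3) ^ 2 := by norm_num
      _ ≤ _ := pow_le_pow_left₀ (by norm_num) h0 2
  have h2 : |y - η| ≤ 4 / 3 := by
    rw [abs_le]
    constructor <;> nlinarith [sq_nonneg (y - η), sq_nonneg (y + η)]
  linarith

/-- convexity of the primitive -/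
theorem jj_convex {η : ℝ} (hη : η ^ 2 ≤ 1 / 3) {y z : ℝ} (hy : y ∈ Ioo (-1 : ℝ) 1)
    (hz : z ∈ Ioo (-1 : ℝ) 1) : jj η z - jj η y ≤ ff η z * (z - y) := by
  have key : ∀ a b : ℝ, a ∈ Ioo (-1 : ℝ) 1 → b ∈ Ioo (-1 : ℝ) 1 → a < b →
      ∃ x ∈ Ioo a b, ff η x * (b - a) = jj η b - jj η a := by
    intro a b ha hb hab
    have hsub : Icc a b ⊆ Ioo (-1 : ℝ) 1 := fun x hx => ⟨ha.1.trans_le hx.1, hx.2.trans_lt hb.2⟩
    obtain ⟨x, hx, h⟩ := exists_hasDerivAt_eq_slope (jj η) (ff η) hab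
      (fun x hx => (hasDerivAt_jj η (hsub hx)).continuousAt.continuousWithinAt)
      (fun x hx => hasDerivAt_jj η (hsub (Ioo_subset_Icc_self hx)))
    refine ⟨x, hx, ?_⟩
    rw [h]
    have : b - a ≠ 0 := by linarith
    field_simp
  rcases lt_trichotomy y z with h | h | h
  · obtain ⟨x, hx, e⟩ := key y z hy hz h
    rw [← e]
    apply mul_le_mul_of_nonneg_right _ (by linarith)
    have hx' : x ∈ Ioo (-1 : ℝ) 1 := ⟨hy.1.trans hx.1, hx.2.trans hz.2⟩
    have := ff_mono hη hx' hz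
    have h2 : 0 < z - x := by linarith [hx.2]
    by_contra hlt
    push Not at hlt
    nlinarith [sq_nonneg (z - x)]
  · rw [h]; simp
  · obtain ⟨x, hx, e⟩ := key z y hz hy h
    have hx' : x ∈ Ioo (-1 : ℝ) 1 := ⟨hz.1.trans hx.1, hx.2.trans hy.2⟩
    have := ff_mono hη hz hx'
    have h2 : 0 < x - z := by linarith [hx.1]
    have h3 : ff η z ≤ ff η x := by
      by_contra hlt
      push Not at hlt
      nlinarith [sq_nonneg (x - z)]
    nlinarith

theorem eqn_eq (h : ℝ → ℝ) (x1 x2 φ : ℝ) : eqn h x1 x2 φ = -ff (h φ) (lin x1 x2 φ) := by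
  unfold eqn ff; ring

theorem nice_jj {x1 x2 : ℝ} (hR : x1 ^ 2 + x2 ^ 2 ≤ 1 / 3) {h : ℝ → ℝ} (hh : Nice h)
    (hh3 : ∀ φ, h φ ^ 2 ≤ 1 / 3) : Nice (fun φ => jj (h φ) (lin x1 x2 φ)) := by
  have hl := (nice_lin x1 x2).1
  refine ⟨?_, 4, fun φ => ?_⟩
  · unfold jj
    have h1 := hh.1
    exact (measurable_const.div (measurable_const.mul (measurable_const.sub (hl.pow_const 2)))).sub
      (h1.mul (((hl.div (measurable_const.sub (hl.pow_const 2))).add
        (((measurable_const.add hl).div (measurable_const.sub hl)).log.div_const 2)).div_const 2))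
  · have hy := (lin_sq_le x1 x2 φ).trans hR
    have hyI := mem_Ioo_of hy
    have h0I : (0 : ℝ) ∈ Ioo (-1 : ℝ) 1 := by constructor <;> norm_num
    have c1 := jj_convex (hh3 φ) h0I hyI
    have c2 := jj_convex (hh3 φ) hyI h0I
    have e0 : jj (h φ) 0 = 1 / 2 := by unfold jj; norm_num
    have b1 := ff_bound (hh3 φ) hy
    have b2 := ff_bound (hh3 φ) (show (0 : ℝ) ^ 2 ≤ 1 / 3 by norm_num)
    rw [e0] at c1 c2
    have hy1 : |lin x1 x2 φ| ≤ 1 := by
      rw [abs_le]; exact ⟨hyI.1.le, hyI.2.le⟩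
    have m1 : |ff (h φ) (lin x1 x2 φ) * (lin x1 x2 φ - 0)| ≤ 3 := by
      rw [abs_mul, sub_zero]
      nlinarith [abs_nonneg (ff (h φ) (lin x1 x2 φ)), abs_nonneg (lin x1 x2 φ)]
    have m2 : |ff (h φ) 0 * (0 - lin x1 x2 φ)| ≤ 3 := by
      rw [abs_mul, zero_sub, abs_neg]
      nlinarith [abs_nonneg (ff (h φ) 0), abs_nonneg (lin x1 x2 φ)]
    have m1' := (abs_le.mp m1).2
    have m2' := (abs_le.mp m2).2
    rw [abs_le]
    constructor <;> linarith

theorem lin_comb (x1 x2 y1 y2 t φ : ℝ) :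
    lin (x1 + t * (y1 - x1)) (x2 + t * (y2 - x2)) φ
      = lin x1 x2 φ + t * (lin y1 y2 φ - lin x1 x2 φ) := by
  unfold lin; ring

theorem nice_ff {x1 x2 : ℝ} (hR : x1 ^ 2 + x2 ^ 2 ≤ 1 / 3) {h : ℝ → ℝ} (hh : Nice h) :
    Nice (fun φ => ff (h φ) (lin x1 x2 φ)) := by
  have h1 := (nice_eqn hR hh).neg
  have e : (fun φ => ff (h φ) (lin x1 x2 φ)) = fun φ => -eqn h x1 x2 φ := by
    funext φ; rw [eqn_eq, neg_neg]
  rw [e]; exact h1

/-- The variational inequality. -/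
def VI (k : ℝ) (h : ℝ → ℝ) (x : ℝ × ℝ) : Prop :=
  x.1 ^ 2 + x.2 ^ 2 ≤ k ^ 2 ∧ ∀ y1 y2 : ℝ, y1 ^ 2 + y2 ^ 2 ≤ k ^ 2 →
    0 ≤ ∫ φ in (0 : ℝ)..(2 * π), ff (h φ) (lin x.1 x.2 φ) * (lin y1 y2 φ - lin x.1 x.2 φ)

theorem disc_convex {k x1 x2 y1 y2 t : ℝ} (hx : x1 ^ 2 + x2 ^ 2 ≤ k ^ 2)
    (hy : y1 ^ 2 + y2 ^ 2 ≤ k ^ 2) (h0 : 0 ≤ t) (h1 : t ≤ 1) :
    (x1 + t * (y1 - x1)) ^ 2 + (x2 + t * (y2 - x2)) ^ 2 ≤ k ^ 2 := by
  have e : (x1 + t * (y1 - x1)) ^ 2 + (x2 + t * (y2 - x2)) ^ 2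
      = (1 - t) * (x1 ^ 2 + x2 ^ 2) + t * (y1 ^ 2 + y2 ^ 2)
        - t * (1 - t) * ((x1 - y1) ^ 2 + (x2 - y2) ^ 2) := by ring
  rw [e]
  have h2 : 0 ≤ t * (1 - t) * ((x1 - y1) ^ 2 + (x2 - y2) ^ 2) :=
    mul_nonneg (mul_nonneg h0 (by linarith)) (by positivity)
  nlinarith [mul_le_mul_of_nonneg_left hx (by linarith : 0 ≤ 1 - t),
    mul_le_mul_of_nonneg_left hy h0]

/-- Existence of the solution. -/
theorem exists_VI {k : ℝ} (hk : k ^ 2 ≤ 1 / 3) {h : ℝ → ℝ} (hh : Nice h)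
    (hhk : ∀ φ, h φ ^ 2 ≤ k ^ 2) : ∃ x, VI k h x := by
  have hh3 : ∀ φ, h φ ^ 2 ≤ 1 / 3 := fun φ => (hhk φ).trans hk
  set D : Set (ℝ × ℝ) := {x | x.1 ^ 2 + x.2 ^ 2 ≤ k ^ 2} with hD
  have hDc : IsCompact D := by
    apply Metric.isCompact_of_isClosed_isBounded
    · exact isClosed_le (by fun_prop) continuous_const
    · apply (Metric.isBounded_closedBall (x := (0 : ℝ × ℝ)) (r := 1)).subset
      intro x hx
      rw [Metric.mem_closedBall, dist_zero_right, Prod.norm_def]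
      have hx' : x.1 ^ 2 + x.2 ^ 2 ≤ k ^ 2 := hx
      apply max_le
      · rw [Real.norm_eq_abs, abs_le]
        constructor <;> nlinarith [sq_nonneg x.1, sq_nonneg x.2]
      · rw [Real.norm_eq_abs, abs_le]
        constructor <;> nlinarith [sq_nonneg x.1, sq_nonneg x.2]
  have hDn : D.Nonempty := ⟨(0, 0), by simp [hD]; positivity⟩
  set J : ℝ × ℝ → ℝ := fun x => ∫ φ in (0 : ℝ)..(2 * π), jj (h φ) (lin x.1 x.2 φ) with hJ
  have hpi : (0 : ℝ) ≤ 2 * π := by positivity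
  -- comparison of values
  have hcomp : ∀ x ∈ D, ∀ y ∈ D, J y - J x
      ≤ ∫ φ in (0 : ℝ)..(2 * π), ff (h φ) (lin y.1 y.2 φ) * (lin y.1 y.2 φ - lin x.1 x.2 φ) := by
    intro x hx y hy
    have hx3 : x.1 ^ 2 + x.2 ^ 2 ≤ 1 / 3 := le_trans hx hk
    have hy3 : y.1 ^ 2 + y.2 ^ 2 ≤ 1 / 3 := le_trans hy hk
    have nx := nice_jj hx3 hh hh3
    have ny := nice_jj hy3 hh hh3
    simp only [hJ]
    rw [← intervalIntegral.integral_sub (ny.intervalIntegrable _ _) (nx.intervalIntegrable _ _)]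
    apply intervalIntegral.integral_mono_on hpi
    · exact (ny.sub nx).intervalIntegrable _ _
    · exact ((nice_ff hy3 hh).mul ((nice_lin _ _).sub (nice_lin _ _))).intervalIntegrable _ _
    · intro φ _
      exact jj_convex (hh3 φ) (mem_Ioo_of ((lin_sq_le _ _ _).trans hx3))
        (mem_Ioo_of ((lin_sq_le _ _ _).trans hy3))
  have hlindiff : ∀ (x y : ℝ × ℝ) (φ : ℝ), |lin y.1 y.2 φ - lin x.1 x.2 φ| ≤ 2 * dist y x := by
    intro x y φ
    have e : lin y.1 y.2 φ - lin x.1 x.2 φ = (y.1 - x.1) * cos φ + (y.2 - x.2) * sin φ := by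
      unfold lin; ring
    rw [e, dist_eq_norm]
    have h1 : |y.1 - x.1| ≤ ‖y - x‖ := norm_fst_le (y - x)
    have h2 : |y.2 - x.2| ≤ ‖y - x‖ := norm_snd_le (y - x)
    refine (abs_add_le _ _).trans ?_
    rw [abs_mul, abs_mul]
    have := abs_cos_le_one φ
    have := abs_sin_le_one φ
    nlinarith [abs_nonneg (y.1 - x.1), abs_nonneg (y.2 - x.2), abs_nonneg (cos φ),
      abs_nonneg (sin φ)]
  have hupper : ∀ x ∈ D, ∀ y ∈ D, J y - J x ≤ 12 * π * dist y x := by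
    intro x hx y hy
    have hy3 : y.1 ^ 2 + y.2 ^ 2 ≤ 1 / 3 := le_trans hy hk
    refine (hcomp x hx y hy).trans ?_
    have h1 := intervalIntegral.norm_integral_le_of_norm_le_const (a := 0) (b := 2 * π)
      (C := 6 * dist y x)
      (f := fun φ => ff (h φ) (lin y.1 y.2 φ) * (lin y.1 y.2 φ - lin x.1 x.2 φ)) (fun φ _ => by
        rw [Real.norm_eq_abs, abs_mul]
        have b1 := ff_bound (hh3 φ) ((lin_sq_le _ _ φ).trans hy3)
        have b2 := hlindiff x y φ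
        calc _ ≤ 3 * (2 * dist y x) := mul_le_mul b1 b2 (abs_nonneg _) (by norm_num)
          _ = _ := by ring)
    rw [sub_zero, abs_of_nonneg hpi] at h1
    refine (le_abs_self _).trans (h1.trans (le_of_eq ?_))
    ring
  have hcont : ContinuousOn J D := by
    rw [Metric.continuousOn_iff]
    intro x hx ε hε
    refine ⟨ε / (12 * π + 1), by positivity, fun y hy hyx => ?_⟩
    have u1 := hupper x hx y hy
    have u2 := hupper y hy x hx
    rw [dist_comm x y] at u2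
    have h3 : 12 * π * dist y x < ε := by
      rw [lt_div_iff₀ (by positivity)] at hyx
      nlinarith [dist_nonneg (x := y) (y := x)]
    rw [Real.dist_eq, abs_lt]
    constructor <;> linarith
  obtain ⟨x, hx, hmin⟩ := hDc.exists_isMinOn hDn hcont
  refine ⟨x, hx, fun y1 y2 hy => ?_⟩
  have hx3 : x.1 ^ 2 + x.2 ^ 2 ≤ 1 / 3 := le_trans hx hk
  set I0 := ∫ φ in (0 : ℝ)..(2 * π), ff (h φ) (lin x.1 x.2 φ) * (lin y1 y2 φ - lin x.1 x.2 φ)
    with hI0
  have key : ∀ t : ℝ, 0 < t → t ≤ 1 → -(96 * π * t) ≤ I0 := by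
    intro t ht0 ht1
    set y : ℝ × ℝ := (x.1 + t * (y1 - x.1), x.2 + t * (y2 - x.2)) with hyd
    have hyD : y ∈ D := disc_convex hx hy ht0.le ht1
    have hy3 : y.1 ^ 2 + y.2 ^ 2 ≤ 1 / 3 := le_trans hyD hk
    have h1 : J x ≤ J y := hmin hyD
    have h2 := hcomp x hx y hyD
    have h3 : ∀ φ, lin y.1 y.2 φ = lin x.1 x.2 φ + t * (lin y1 y2 φ - lin x.1 x.2 φ) :=
      fun φ => lin_comb _ _ _ _ _ _
    have h4 : (∫ φ in (0 : ℝ)..(2 * π), ff (h φ) (lin y.1 y.2 φ)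
        * (lin y.1 y.2 φ - lin x.1 x.2 φ))
        ≤ ∫ φ in (0 : ℝ)..(2 * π), (t * (ff (h φ) (lin x.1 x.2 φ)
          * (lin y1 y2 φ - lin x.1 x.2 φ)) + 48 * t ^ 2) := by
      apply intervalIntegral.integral_mono_on hpi
      · exact ((nice_ff hy3 hh).mul ((nice_lin _ _).sub (nice_lin _ _))).intervalIntegrable _ _
      · exact (((Nice.const t).mul ((nice_ff hx3 hh).mul ((nice_lin _ _).sub
          (nice_lin _ _)))).add (Nice.const _)).intervalIntegrable _ _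
      · intro φ _
        have l1 := ff_lip (hh3 φ) ((lin_sq_le _ _ φ).trans hx3) ((lin_sq_le y.1 y.2 φ).trans hy3)
        have hy'3 : lin y1 y2 φ ^ 2 ≤ 1 / 3 := (lin_sq_le _ _ φ).trans (hy.trans hk)
        have hx'3 : lin x.1 x.2 φ ^ 2 ≤ 1 / 3 := (lin_sq_le _ _ φ).trans hx3
        rw [h3 φ] at l1 ⊢
        set a := lin x.1 x.2 φ with ha
        set b := lin y1 y2 φ with hb
        have e1 : a + t * (b - a) - a = t * (b - a) := by ring
        rw [e1] at l1 ⊢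
        have hba : |b - a| ≤ 2 := by
          rw [abs_le]; constructor <;> nlinarith [sq_nonneg (a - b), sq_nonneg (a + b)]
        rw [abs_mul, abs_of_pos ht0] at l1
        have l2 : (ff (h φ) (a + t * (b - a)) - ff (h φ) a) * (b - a) ≤ 48 * t := by
          calc _ ≤ |(ff (h φ) (a + t * (b - a)) - ff (h φ) a) * (b - a)| := le_abs_self _
            _ = |ff (h φ) (a + t * (b - a)) - ff (h φ) a| * |b - a| := abs_mul _ _
            _ ≤ (12 * (t * |b - a|)) * |b - a| := mul_le_mul_of_nonneg_right l1 (abs_nonneg _)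
            _ ≤ (12 * (t * 2)) * 2 := by
              apply mul_le_mul _ hba (abs_nonneg _) (by positivity)
              nlinarith
            _ = 48 * t := by ring
        nlinarith
    have nI := (Nice.const t).mul ((nice_ff hx3 hh).mul ((nice_lin y1 y2).sub
          (nice_lin x.1 x.2)))
    rw [intervalIntegral.integral_add (nI.intervalIntegrable _ _)
      ((Nice.const _).intervalIntegrable _ _), intervalIntegral.integral_const_mul,
      intervalIntegral.integral_const, ← hI0, smul_eq_mul] at h4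
    have h5 : 0 ≤ t * I0 + (2 * π - 0) * (48 * t ^ 2) := by linarith
    by_contra hlt
    push Not at hlt
    nlinarith [mul_lt_mul_of_pos_left hlt ht0]
  by_contra hlt
  push Not at hlt
  have hlt' : 0 < -I0 := by linarith
  have h96 : 0 < 96 * π := by positivity
  set t := min 1 (-I0 / (2 * (96 * π))) with ht
  have ht0 : 0 < t := lt_min one_pos (by positivity)
  have h1 := key t ht0 (min_le_left _ _)
  have h2 : t ≤ -I0 / (2 * (96 * π)) := min_le_right _ _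
  have h3 : 96 * π * t ≤ -I0 / 2 := by
    calc 96 * π * t ≤ 96 * π * (-I0 / (2 * (96 * π))) := mul_le_mul_of_nonneg_left h2 h96.le
      _ = -I0 / 2 := by field_simp
  linarith

theorem integral_lin_sq (a b : ℝ) :
    ∫ φ in (0 : ℝ)..(2 * π), lin a b φ ^ 2 = π * (a ^ 2 + b ^ 2) := by
  have hd : ∀ φ : ℝ, HasDerivAt (fun φ => (a ^ 2 + b ^ 2) / 2 * φ
      + (a ^ 2 - b ^ 2) / 2 * (sin φ * cos φ) + a * b * (sin φ * sin φ)) (lin a b φ ^ 2) φ := by
    intro φ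
    have h1 := ((hasDerivAt_id' φ).const_mul ((a ^ 2 + b ^ 2) / 2)).fun_add
      (((hasDerivAt_sin φ).fun_mul (hasDerivAt_cos φ)).const_mul ((a ^ 2 - b ^ 2) / 2))
    have h2 := h1.fun_add (((hasDerivAt_sin φ).fun_mul (hasDerivAt_sin φ)).const_mul (a * b))
    refine h2.congr_deriv ?_
    unfold lin
    have := sin_sq_add_cos_sq φ
    linear_combination (-(a ^ 2 + b ^ 2) / 2) * this
  have hcont : Continuous (fun φ => lin a b φ ^ 2) := by unfold lin; fun_prop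
  rw [intervalIntegral.integral_eq_sub_of_hasDerivAt (fun x _ => hd x)
    (hcont.intervalIntegrable _ _)]
  simp
  ring

/-- Lipschitz dependence of the solution. -/
theorem VI_lip {k : ℝ} (hk : k ^ 2 ≤ 1 / 3) {h h' : ℝ → ℝ} (hh : Nice h) (hh' : Nice h')
    (hhk : ∀ φ, h φ ^ 2 ≤ k ^ 2) {δ : ℝ} (hδ : ∀ φ, |h φ - h' φ| ≤ δ)
    {x y : ℝ × ℝ} (hx : VI k h x) (hy : VI k h' y) :
    √((y.1 - x.1) ^ 2 + (y.2 - x.2) ^ 2) ≤ 9 * δ := by
  have hh3 : ∀ φ, h φ ^ 2 ≤ 1 / 3 := fun φ => (hhk φ).trans hk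
  have hx3 : x.1 ^ 2 + x.2 ^ 2 ≤ 1 / 3 := hx.1.trans hk
  have hy3 : y.1 ^ 2 + y.2 ^ 2 ≤ 1 / 3 := hy.1.trans hk
  have v1 := hx.2 y.1 y.2 hy.1
  have v2 := hy.2 x.1 x.2 hx.1
  set E := √((y.1 - x.1) ^ 2 + (y.2 - x.2) ^ 2) with hE
  have hE0 : 0 ≤ E := Real.sqrt_nonneg _
  have hE2 : E ^ 2 = (y.1 - x.1) ^ 2 + (y.2 - x.2) ^ 2 := Real.sq_sqrt (by positivity)
  have hδ0 : 0 ≤ δ := (abs_nonneg _).trans (hδ 0)
  have hpi : (0 : ℝ) ≤ 2 * π := by positivity
  have hlin : ∀ φ, lin y.1 y.2 φ - lin x.1 x.2 φ = lin (y.1 - x.1) (y.2 - x.2) φ := by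
    intro φ; unfold lin; ring
  have habs : ∀ φ, |lin (y.1 - x.1) (y.2 - x.2) φ| ≤ E := by
    intro φ
    exact Real.abs_le_sqrt (lin_sq_le _ _ φ)
  have n1 := (nice_ff hx3 hh).mul ((nice_lin y.1 y.2).sub (nice_lin x.1 x.2))
  have n2 := (nice_ff hy3 hh').mul ((nice_lin x.1 x.2).sub (nice_lin y.1 y.2))
  have n3 : Nice (fun φ => 9 / 4 * δ * E - 5 / 9 * lin (y.1 - x.1) (y.2 - x.2) φ ^ 2) :=
    (Nice.const _).sub ((Nice.const _).mul ((nice_lin _ _).pow 2))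
  have h1 : 0 ≤ ∫ φ in (0 : ℝ)..(2 * π),
      (9 / 4 * δ * E - 5 / 9 * lin (y.1 - x.1) (y.2 - x.2) φ ^ 2) := by
    have h2 := add_nonneg v1 v2
    rw [← intervalIntegral.integral_add (n1.intervalIntegrable _ _)
      (n2.intervalIntegrable _ _)] at h2
    refine h2.trans ?_
    apply intervalIntegral.integral_mono_on hpi
    · exact (n1.add n2).intervalIntegrable _ _
    · exact n3.intervalIntegrable _ _
    · intro φ _
      have m1 := ff_mono (hh3 φ) (mem_Ioo_of ((lin_sq_le x.1 x.2 φ).trans hx3))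
        (mem_Ioo_of ((lin_sq_le y.1 y.2 φ).trans hy3))
      have m2 := ff_lip' (η := h φ) (η' := h' φ) ((lin_sq_le y.1 y.2 φ).trans hy3)
      have m3 := habs φ
      have m4 := hδ φ
      rw [← hlin] at m3 ⊢
      set a := lin x.1 x.2 φ
      set b := lin y.1 y.2 φ
      have e : ff (h φ) a * (b - a) + ff (h' φ) b * (a - b)
          = -((ff (h φ) b - ff (h φ) a) * (b - a)) + (ff (h φ) b - ff (h' φ) b) * (b - a) := by
        ring
      rw [e]
      have m5 : (ff (h φ) b - ff (h' φ) b) * (b - a) ≤ 9 / 4 * δ * E := by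
        calc _ ≤ |(ff (h φ) b - ff (h' φ) b) * (b - a)| := le_abs_self _
          _ = |ff (h φ) b - ff (h' φ) b| * |b - a| := abs_mul _ _
          _ ≤ (9 / 4 * δ) * E := by
            apply mul_le_mul (m2.trans (by linarith)) m3 (abs_nonneg _) (by positivity)
      linarith
  rw [intervalIntegral.integral_sub ((Nice.const _).intervalIntegrable _ _)
    (((Nice.const _).mul ((nice_lin _ _).pow 2)).intervalIntegrable _ _),
    intervalIntegral.integral_const, intervalIntegral.integral_const_mul, integral_lin_sq,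
    smul_eq_mul, ← hE2] at h1
  have hpi' := Real.pi_pos
  have h2 : 0 ≤ (9 / 2 * δ - 5 / 9 * E) * E := by
    have e : (2 * π - 0) * (9 / 4 * δ * E) - 5 / 9 * (π * E ^ 2)
        = π * ((9 / 2 * δ - 5 / 9 * E) * E) := by ring
    rw [e] at h1
    exact nonneg_of_mul_nonneg_right h1 hpi'
  by_contra hlt
  push Not at hlt
  have hEpos : 0 < E := by linarith
  have : 9 / 2 * δ - 5 / 9 * E < 0 := by linarith
  nlinarith [mul_neg_of_neg_of_pos this hEpos]

/-- A pencil is its own solution. -/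
theorem VI_pencil {k x1 x2 : ℝ} (hx : x1 ^ 2 + x2 ^ 2 ≤ k ^ 2) : VI k (lin x1 x2) (x1, x2) := by
  refine ⟨hx, fun y1 y2 _ => ?_⟩
  have e : ∀ φ, ff (lin x1 x2 φ) (lin x1 x2 φ) = 0 := by
    intro φ; unfold ff; simp
  simp [e]

/-- In the interior of the disc the equation holds. -/
theorem VI_eqn {k : ℝ} {h : ℝ → ℝ} {x : ℝ × ℝ} (hx : VI k h x)
    (hint : x.1 ^ 2 + x.2 ^ 2 < k ^ 2) (i : Fin 2) :
    ∫ φ in (0 : ℝ)..(2 * π), vv i φ * eqn h x.1 x.2 φ = 0 := by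
  set I := ∫ φ in (0 : ℝ)..(2 * π), vv i φ * eqn h x.1 x.2 φ with hI
  set e1 : ℝ := if i = 0 then 1 else 0 with he1
  set e2 : ℝ := if i = 0 then 0 else 1 with he2
  have hcont : Continuous (fun t : ℝ => (x.1 + t * e1) ^ 2 + (x.2 + t * e2) ^ 2) := by fun_prop
  have h0 : ∀ᶠ t in nhds (0 : ℝ), (x.1 + t * e1) ^ 2 + (x.2 + t * e2) ^ 2 < k ^ 2 := by
    apply hcont.continuousAt.eventually (gt_mem_nhds _)
    simpa using hint
  obtain ⟨ε, hε, hball⟩ := Metric.eventually_nhds_iff.mp h0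
  have key : ∀ t : ℝ, |t| < ε → 0 ≤ -t * I := by
    intro t ht
    have h1 := hx.2 (x.1 + t * e1) (x.2 + t * e2) (hball (by simpa [Real.dist_eq] using ht)).le
    have e : ∀ φ, ff (h φ) (lin x.1 x.2 φ) * (lin (x.1 + t * e1) (x.2 + t * e2) φ
        - lin x.1 x.2 φ) = -t * (vv i φ * eqn h x.1 x.2 φ) := by
      intro φ
      rw [eqn_eq]
      unfold lin vv
      simp only [he1, he2]
      split_ifs <;> ring
    simp_rw [e] at h1
    rwa [intervalIntegral.integral_const_mul] at h1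
  have k1 := key (ε / 2) (by rw [abs_of_pos (by positivity)]; linarith)
  have k2 := key (-(ε / 2)) (by rw [abs_neg, abs_of_pos (by positivity)]; linarith)
  have h1 : I ≤ 0 := by
    by_contra hlt; push Not at hlt; nlinarith
  have h2 : 0 ≤ I := by
    by_contra hlt; push Not at hlt; nlinarith
  exact le_antisymm h1 h2

end Pool.Agent.Helper83K9.Cap
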