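import Mathlib
import Pool.Agent.Helper83K9.Cap.Solve

/-! # Differentiating the equation -/

set_option autoImplicit false

open Real MeasureTheory Set Filter Topology

namespace Pool.Agent.Helper83K9.Cap

theorem abs_vv_le (i : Fin 2) (φ : ℝ) : |vv i φ| ≤ 1 := by
  unfold vv
  split_ifs
  · exact abs_cos_le_one _
  · exact abs_sin_le_one _

theorem lin_sub (x1 x2 y1 y2 φ : ℝ) :
    |lin x1 x2 φ - lin y1 y2 φ| ≤ |x1 - y1| + |x2 - y2| := by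
  have e : lin x1 x2 φ - lin y1 y2 φ = (x1 - y1) * cos φ + (x2 - y2) * sin φ := by
    unfold lin; ring
  rw [e]
  refine (abs_add_le _ _).trans ?_
  rw [abs_mul, abs_mul]
  have h1 := abs_cos_le_one φ
  have h2 := abs_sin_le_one φ
  have h3 := mul_le_mul_of_nonneg_left h1 (abs_nonneg (x1 - y1))
  have h4 := mul_le_mul_of_nonneg_left h2 (abs_nonneg (x2 - y2))
  linarith

theorem hasDerivAt_eqn {h : ℝ → ℝ → ℝ} {X1 X2 : ℝ → ℝ} {p : ℝ → ℝ} {ξ1 ξ2 φ t : ℝ}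
    (hR : X1 t ^ 2 + X2 t ^ 2 ≤ 1 / 3)
    (dh : HasDerivAt (fun t => h t φ) (p φ) t) (d1 : HasDerivAt X1 ξ1 t)
    (d2 : HasDerivAt X2 ξ2 t) :
    HasDerivAt (fun t => eqn (h t) (X1 t) (X2 t) φ)
      (deqn (h t) p (X1 t) (X2 t) ξ1 ξ2 φ) t := by
  have hy : HasDerivAt (fun t => lin (X1 t) (X2 t) φ) (lin ξ1 ξ2 φ) t := by
    unfold lin
    exact (d1.mul_const _).fun_add (d2.mul_const _)
  have hy3 := (lin_sq_le (X1 t) (X2 t) φ).trans hR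
  have h0 : 0 < 1 - lin (X1 t) (X2 t) φ ^ 2 := by linarith
  have h1 : HasDerivAt (fun t => (1 - lin (X1 t) (X2 t) φ ^ 2) ^ 2)
      (2 * (1 - lin (X1 t) (X2 t) φ ^ 2) * (-(2 * lin (X1 t) (X2 t) φ * lin ξ1 ξ2 φ))) t := by
    have := ((hy.fun_pow 2).const_sub 1).fun_pow 2
    refine this.congr_deriv ?_
    push_cast; ring
  have h2 := (dh.fun_sub hy).fun_div h1 (by positivity)
  unfold eqn
  refine h2.congr_deriv ?_
  unfold deqn
  field_simp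
  ring

theorem deriv_eqn {k : ℝ} (hk : k ^ 2 ≤ 1 / 3) {h : ℝ → ℝ → ℝ} {X1 X2 : ℝ → ℝ} {C ε : ℝ}
    (hε : 0 < ε) (nh : ∀ t, Nice (h t)) (hh : ∀ t φ, h t φ ^ 2 ≤ k ^ 2)
    (hX : ∀ t, X1 t ^ 2 + X2 t ^ 2 ≤ k ^ 2)
    (lh : ∀ t ∈ Metric.ball (0 : ℝ) ε, ∀ t' ∈ Metric.ball (0 : ℝ) ε, ∀ φ,
      |h t φ - h t' φ| ≤ C * |t - t'|)
    (l1 : ∀ t ∈ Metric.ball (0 : ℝ) ε, ∀ t' ∈ Metric.ball (0 : ℝ) ε,
      |X1 t - X1 t'| ≤ C * |t - t'|)
    (l2 : ∀ t ∈ Metric.ball (0 : ℝ) ε, ∀ t' ∈ Metric.ball (0 : ℝ) ε,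
      |X2 t - X2 t'| ≤ C * |t - t'|)
    {p : ℝ → ℝ} (np : Nice p) {ξ1 ξ2 : ℝ}
    (dh : ∀ᵐ φ ∂(volume : Measure ℝ), HasDerivAt (fun t => h t φ) (p φ) 0)
    (d1 : HasDerivAt X1 ξ1 0) (d2 : HasDerivAt X2 ξ2 0) (i : Fin 2)
    (hE : ∀ᶠ t in 𝓝 (0 : ℝ), ∫ φ in (0 : ℝ)..(2 * π), vv i φ * eqn (h t) (X1 t) (X2 t) φ = 0) :
    ∫ φ in (0 : ℝ)..(2 * π), vv i φ * deqn (h 0) p (X1 0) (X2 0) ξ1 ξ2 φ = 0 := by
  have hX3 : ∀ t, X1 t ^ 2 + X2 t ^ 2 ≤ 1 / 3 := fun t => (hX t).trans hk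
  have nF : ∀ t, Nice (fun φ => vv i φ * eqn (h t) (X1 t) (X2 t) φ) := fun t =>
    (nice_eqn (hX3 t) (nh t)).comb i
  have nF' : Nice (fun φ => vv i φ * deqn (h 0) p (X1 0) (X2 0) ξ1 ξ2 φ) :=
    (nice_deqn (hX3 0) (nh 0) np ξ1 ξ2).comb i
  have key := intervalIntegral.hasDerivAt_integral_of_dominated_loc_of_lip
    (μ := volume) (a := 0) (b := 2 * π) (bound := fun _ => 27 * C)
    (F := fun t φ => vv i φ * eqn (h t) (X1 t) (X2 t) φ)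
    (F' := fun φ => vv i φ * deqn (h 0) p (X1 0) (X2 0) ξ1 ξ2 φ)
    (Metric.ball_mem_nhds (0 : ℝ) hε)
    (Eventually.of_forall fun t => (nF t).1.aestronglyMeasurable)
    ((nF 0).intervalIntegrable _ _) nF'.1.aestronglyMeasurable
    (Eventually.of_forall fun φ _ => by
      apply LipschitzOnWith.of_dist_le_mul
      intro t ht t' ht'
      rw [Real.dist_eq, Real.dist_eq, Real.coe_nnabs]
      show |vv i φ * eqn (h t) (X1 t) (X2 t) φ - vv i φ * eqn (h t') (X1 t') (X2 t') φ| ≤ _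
      rw [← mul_sub, abs_mul, eqn_eq, eqn_eq]
      have b1 := abs_vv_le i φ
      have b2 := lh t ht t' ht' φ
      have b3 := l1 t ht t' ht'
      have b4 := l2 t ht t' ht'
      have b5 := lin_sub (X1 t) (X2 t) (X1 t') (X2 t') φ
      have b6 := ff_lip (η := h t φ) ((hh t φ).trans hk)
        ((lin_sq_le (X1 t') (X2 t') φ).trans (hX3 t')) ((lin_sq_le (X1 t) (X2 t) φ).trans (hX3 t))
      have b7 := ff_lip' (η := h t φ) (η' := h t' φ)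
        ((lin_sq_le (X1 t') (X2 t') φ).trans (hX3 t'))
      have b8 : |-ff (h t φ) (lin (X1 t) (X2 t) φ) - -ff (h t' φ) (lin (X1 t') (X2 t') φ)|
          ≤ 27 * C * |t - t'| := by
        have e : -ff (h t φ) (lin (X1 t) (X2 t) φ) - -ff (h t' φ) (lin (X1 t') (X2 t') φ)
            = -((ff (h t φ) (lin (X1 t) (X2 t) φ) - ff (h t φ) (lin (X1 t') (X2 t') φ))
              + (ff (h t φ) (lin (X1 t') (X2 t') φ) - ff (h t' φ) (lin (X1 t') (X2 t') φ))) := by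
          ring
        rw [e, abs_neg]
        refine (abs_add_le _ _).trans ?_
        have h0 : 0 ≤ C * |t - t'| := (abs_nonneg _).trans b2
        nlinarith
      calc |vv i φ| * |-ff (h t φ) (lin (X1 t) (X2 t) φ) - -ff (h t' φ) (lin (X1 t') (X2 t') φ)|
          ≤ 1 * (27 * C * |t - t'|) := mul_le_mul b1 b8 (abs_nonneg _) zero_le_one
        _ ≤ |27 * C| * |t - t'| := by
          rw [one_mul]
          exact mul_le_mul_of_nonneg_right (le_abs_self _) (abs_nonneg _))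
    (by simp)
    (by
      filter_upwards [dh] with φ hφ _
      exact (hasDerivAt_eqn (hX3 0) hφ d1 d2).const_mul (vv i φ))
  have h0 : HasDerivAt (fun t => ∫ φ in (0 : ℝ)..(2 * π), vv i φ * eqn (h t) (X1 t) (X2 t) φ)
      0 0 := (hasDerivAt_const (0 : ℝ) (0 : ℝ)).congr_of_eventuallyEq hE
  exact key.2.unique h0

end Pool.Agent.Helper83K9.Cap
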