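import Mathlib
import Pool.Agent.Helper83K9.Cap.Diff
import Pool.Agent.Helper83K9.Cap.Boundary
import Pool.Agent.W664.Fill.Cal

/-! # The Jacobian of the estimator in a chart -/

set_option autoImplicit false

open Real MeasureTheory Set Filter Topology

namespace Pool.Agent.Helper83K9.Cap

open Pool.Agent.H115R3.Filling Pool.Agent.W664.Fill

/-- projection to the unit square -/
noncomputable def cl (x : ℝ × ℝ) : ℝ × ℝ := (max 0 (min x.1 1), max 0 (min x.2 1))

theorem cl_mem (x : ℝ × ℝ) : cl x ∈ Sq := by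
  refine ⟨⟨le_max_left _ _, max_le zero_le_one (min_le_right _ _)⟩,
    ⟨le_max_left _ _, max_le zero_le_one (min_le_right _ _)⟩⟩

theorem cl_eq {x : ℝ × ℝ} (hx : x ∈ Sq) : cl x = x := by
  obtain ⟨⟨h1, h2⟩, h3, h4⟩ := hx
  unfold cl
  rw [min_eq_left h2, max_eq_right h1, min_eq_left h4, max_eq_right h3]

theorem clamp_lip (a b : ℝ) : |max 0 (min a 1) - max 0 (min b 1)| ≤ |a - b| := by
  refine (abs_max_sub_max_le_max _ _ _ _).trans ?_
  apply max_le
  · simp
  · refine (abs_min_sub_min_le_max _ _ _ _).trans ?_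
    apply max_le le_rfl
    simp

theorem cl_lip (x y : ℝ × ℝ) : ‖cl x - cl y‖ ≤ ‖x - y‖ := by
  rw [Prod.norm_def, Prod.norm_def]
  exact max_le_max (clamp_lip _ _) (clamp_lip _ _)

theorem measurable_fderiv_param {f : ℝ → ℝ × ℝ → ℝ} (hf : Continuous (Function.uncurry f))
    (x e : ℝ × ℝ) : Measurable (fun φ => fderiv ℝ (f φ) x e) := by
  have h : Measurable (fun q : ℝ × (ℝ × ℝ) => fderiv ℝ (f q.1) q.2 e) :=
    measurable_fderiv_apply_const_with_param ℝ hf e
  have h2 : Measurable (fun φ : ℝ => ((φ, x) : ℝ × (ℝ × ℝ))) := by fun_prop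
  exact h.comp h2

section

variable {M : Type} [MetricSpace M] (S : OrientedSurface M)

theorem segLip_of {V : M → ℝ} (hV : ∀ x y, |V x - V y| ≤ dist x y) (i : Fin S.faces) :
    SegLip (S.metric i) (fun p => V (S.chart i p)) := by
  intro p hp q hq
  refine (hV _ _).trans ?_
  rw [dist_comm]
  exact S.dist_le i p hp q hq

theorem chart_dist (i : Fin S.faces) : ∃ C : ℝ, 0 ≤ C ∧ ∀ p ∈ Sq, ∀ q ∈ Sq,
    dist (S.chart i p) (S.chart i q) ≤ C * ‖p - q‖ := by
  obtain ⟨C, hC0, hC⟩ := (S.metric i).exists_bound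
  refine ⟨C, hC0, fun p hp q hq => ?_⟩
  refine (S.dist_le i p hp q hq).trans ?_
  rw [norm_sub_rev]
  apply (S.metric i).segLength_le
  intro t h0 h1
  exact hC _ (seg_mem hp hq h0 h1) _

/-- the extended functions in a chart -/
noncomputable def fch (k : ℝ) (i : Fin S.faces) (φ : ℝ) (x : ℝ × ℝ) : ℝ :=
  sfun S k φ (S.chart i (cl x))

theorem fch_continuous {k : ℝ} (hk : 0 ≤ k) (hk1 : k ≤ 1) (i : Fin S.faces) :
    Continuous (Function.uncurry (fch S k i)) := by
  obtain ⟨C, hC0, hC⟩ := chart_dist S i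
  have : LipschitzWith (Real.toNNReal (1 + C)) (Function.uncurry (fch S k i)) := by
    apply LipschitzWith.of_dist_le_mul
    rintro ⟨φ, x⟩ ⟨φ', x'⟩
    rw [Real.coe_toNNReal _ (by positivity), Real.dist_eq]
    simp only [Function.uncurry]
    unfold fch
    have h1 := sfun_lip S hk hk1 φ φ' (S.chart i (cl x)) (S.chart i (cl x'))
    have h2 := hC (cl x) (cl_mem x) (cl x') (cl_mem x')
    have h3 := mul_le_mul_of_nonneg_left (cl_lip x x') hC0
    have h4 : |φ - φ'| ≤ dist (φ, x) (φ', x') := by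
      rw [← Real.dist_eq]; exact le_max_left _ _
    have h5 : ‖x - x'‖ ≤ dist (φ, x) (φ', x') := by
      rw [← dist_eq_norm]; exact le_max_right _ _
    have h6 := mul_le_mul_of_nonneg_left h5 hC0
    linarith
  exact this.continuous

theorem fch_eventually {k : ℝ} (i : Fin S.faces) (φ : ℝ) {x : ℝ × ℝ} (hx : x ∈ Sqo) :
    (fun p => sfun S k φ (S.chart i p)) =ᶠ[𝓝 x] fch S k i φ := by
  filter_upwards [isOpen_Sqo.mem_nhds hx] with p hp
  unfold fch
  rw [cl_eq (Sqo_sub hp)]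

/-- Almost everywhere, almost all extended functions are differentiable. -/
theorem ae_ae_diff {k : ℝ} (hk : 0 ≤ k) (hk1 : k ≤ 1) (i : Fin S.faces) :
    ∀ᵐ x ∂(volume.restrict Sqo), ∀ᵐ φ ∂(volume : Measure ℝ),
      DifferentiableAt ℝ (fun p => sfun S k φ (S.chart i p)) x := by
  have hm := measurableSet_of_differentiableAt_with_param ℝ (fch_continuous S hk hk1 i)
  have h1 : ∀ᵐ φ ∂(volume : Measure ℝ), ∀ᵐ x ∂(volume.restrict Sqo),
      DifferentiableAt ℝ (fch S k i φ) x := by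
    apply Eventually.of_forall
    intro φ
    filter_upwards [(segLip_of S (sfun_lip_z S hk hk1 φ) i).ae_diff,
      self_mem_ae_restrict isOpen_Sqo.measurableSet] with x hx hxo
    exact hx.congr_of_eventuallyEq (fch_eventually S i φ hxo).symm
  have h2 := (Measure.ae_ae_comm (μ := (volume : Measure ℝ))
    (ν := (volume : Measure (ℝ × ℝ)).restrict Sqo)
    (p := fun φ x => DifferentiableAt ℝ (fch S k i φ) x) hm).mp h1
  filter_upwards [h2, self_mem_ae_restrict isOpen_Sqo.measurableSet] with x hx hxo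
  filter_upwards [hx] with φ hφ
  exact hφ.congr_of_eventuallyEq (fch_eventually S i φ hxo)

theorem measurable_fderiv_fch {k : ℝ} (hk : 0 ≤ k) (hk1 : k ≤ 1) (i : Fin S.faces)
    (x e : ℝ × ℝ) : Measurable (fun φ => fderiv ℝ (fch S k i φ) x e) :=
  measurable_fderiv_param (fch_continuous S hk hk1 i) x e

/-- The estimator. -/
structure Est (k : ℝ) (X : M → ℝ × ℝ) : Prop where
  vi : ∀ z, VI k (hz S k z) (X z)

theorem nice_hz {k : ℝ} (hk : 0 ≤ k) (hk1 : k ≤ 1) (z : M) : Nice (hz S k z) :=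
  ⟨(continuous_hz S hk hk1 z).measurable, 1, fun _ => abs_sin_le_one _⟩

theorem exists_est {k : ℝ} (hk0 : 0 ≤ k) (hk : k ^ 2 ≤ 1 / 3) : ∃ X : M → ℝ × ℝ, Est S k X := by
  have hk1 : k ≤ 1 := by nlinarith
  have h : ∀ z : M, ∃ x, VI k (hz S k z) x := fun z =>
    exists_VI hk (nice_hz S hk0 hk1 z) (hz_sq_le S hk0 hk1 z)
  choose X hX using h
  exact ⟨X, ⟨hX⟩⟩

variable {S}

theorem Est.lip {k : ℝ} (hk0 : 0 ≤ k) (hk : k ^ 2 ≤ 1 / 3) {X : M → ℝ × ℝ} (hX : Est S k X)
    (z w : M) : √(((X z).1 - (X w).1) ^ 2 + ((X z).2 - (X w).2) ^ 2) ≤ 9 * dist z w := by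
  have hk1 : k ≤ 1 := by nlinarith
  have h := VI_lip hk (nice_hz S hk0 hk1 w) (nice_hz S hk0 hk1 z) (hz_sq_le S hk0 hk1 w)
    (δ := dist z w) (fun φ => by
      have := hz_lip S hk0 hk1 φ φ w z
      rw [dist_comm w z] at this
      simpa using this) (hX.vi w) (hX.vi z)
  exact h

theorem Est.lip1 {k : ℝ} (hk0 : 0 ≤ k) (hk : k ^ 2 ≤ 1 / 3) {X : M → ℝ × ℝ} (hX : Est S k X)
    (z w : M) : |(X z).1 - (X w).1| ≤ 9 * dist z w :=
  (Real.abs_le_sqrt (by nlinarith [sq_nonneg ((X z).2 - (X w).2)])).trans (hX.lip hk0 hk z w)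

theorem Est.lip2 {k : ℝ} (hk0 : 0 ≤ k) (hk : k ^ 2 ≤ 1 / 3) {X : M → ℝ × ℝ} (hX : Est S k X)
    (z w : M) : |(X z).2 - (X w).2| ≤ 9 * dist z w :=
  (Real.abs_le_sqrt (by nlinarith [sq_nonneg ((X z).1 - (X w).1)])).trans (hX.lip hk0 hk z w)

theorem ae_diff_of_lip {V : M → ℝ} {L : ℝ} (hL : 0 < L) (hV : ∀ x y, |V x - V y| ≤ L * dist x y)
    (i : Fin S.faces) :
    ∀ᵐ x ∂(volume.restrict Sqo), DifferentiableAt ℝ (fun p => V (S.chart i p)) x := by
  have h1 : ∀ x y, |V x / L - V y / L| ≤ dist x y := by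
    intro x y
    rw [← sub_div, abs_div, abs_of_pos hL, div_le_iff₀ hL, mul_comm]
    exact hV x y
  filter_upwards [(segLip_of S h1 i).ae_diff] with x hx
  have h2 := hx.const_mul L
  refine h2.congr_of_eventuallyEq (Eventually.of_forall fun p => ?_)
  simp only
  field_simp

theorem lineDeriv_of {f : ℝ × ℝ → ℝ} {x : ℝ × ℝ} (h : DifferentiableAt ℝ f x) (e : ℝ × ℝ) :
    HasDerivAt (fun t : ℝ => f (x + t • e)) (fderiv ℝ f x e) 0 :=
  h.hasFDerivAt.hasLineDerivAt e

/-- the differentiated equation in a chart -/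
theorem chart_deqn {k : ℝ} (hk0 : 0 ≤ k) (hk : k ^ 2 ≤ 1 / 3) {X : M → ℝ × ℝ}
    (hX : Est S k X) (i : Fin S.faces) {x : ℝ × ℝ} (hx : x ∈ Sqo)
    (hd : ∀ᵐ φ ∂(volume : Measure ℝ), DifferentiableAt ℝ (fun p => sfun S k φ (S.chart i p)) x)
    (d1 : DifferentiableAt ℝ (fun p => (X (S.chart i p)).1) x)
    (d2 : DifferentiableAt ℝ (fun p => (X (S.chart i p)).2) x)
    (hint : (X (S.chart i x)).1 ^ 2 + (X (S.chart i x)).2 ^ 2 < k ^ 2) (e : ℝ × ℝ)
    {p : ℝ → ℝ} (np : Nice p)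
    (hp : ∀ φ, p φ = cos (sfun S k φ (S.chart i x)) *
      fderiv ℝ (fun p => sfun S k φ (S.chart i p)) x e) (j : Fin 2) :
    ∫ φ in (0 : ℝ)..(2 * π), vv j φ * deqn (hz S k (S.chart i x)) p (X (S.chart i x)).1
      (X (S.chart i x)).2 (fderiv ℝ (fun p => (X (S.chart i p)).1) x e)
      (fderiv ℝ (fun p => (X (S.chart i p)).2) x e) φ = 0 := by
  have hk1 : k ≤ 1 := by nlinarith
  obtain ⟨C, hC0, hC⟩ := chart_dist S i
  have hcont : Continuous (fun t : ℝ => x + t • e) := by fun_prop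
  have hev : ∀ᶠ t in 𝓝 (0 : ℝ), x + t • e ∈ Sqo := by
    apply hcont.continuousAt.eventually
    apply isOpen_Sqo.mem_nhds
    simpa using hx
  obtain ⟨ε, hε, hball⟩ := Metric.eventually_nhds_iff.mp hev
  have hmem : ∀ t ∈ Metric.ball (0 : ℝ) ε, x + t • e ∈ Sq := fun t ht =>
    Sqo_sub (hball (Metric.mem_ball.mp ht))
  have hdist : ∀ t ∈ Metric.ball (0 : ℝ) ε, ∀ t' ∈ Metric.ball (0 : ℝ) ε,
      dist (S.chart i (x + t • e)) (S.chart i (x + t' • e)) ≤ (C * ‖e‖) * |t - t'| := by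
    intro t ht t' ht'
    refine (hC _ (hmem t ht) _ (hmem t' ht')).trans (le_of_eq ?_)
    have e1 : x + t • e - (x + t' • e) = (t - t') • e := by
      rw [sub_smul]; abel
    rw [e1, norm_smul, Real.norm_eq_abs]
    ring
  have hx0 : x + (0 : ℝ) • e = x := by simp
  have key := deriv_eqn hk (h := fun t => hz S k (S.chart i (x + t • e)))
    (X1 := fun t => (X (S.chart i (x + t • e))).1) (X2 := fun t => (X (S.chart i (x + t • e))).2)
    (C := 9 * (C * ‖e‖)) hε (fun t => nice_hz S hk0 hk1 _) (fun t => hz_sq_le S hk0 hk1 _)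
    (fun t => (hX.vi _).1)
    (fun t ht t' ht' φ => by
      have h1 := hz_lip S hk0 hk1 φ φ (S.chart i (x + t • e)) (S.chart i (x + t' • e))
      have h2 := hdist t ht t' ht'
      have h3 : 0 ≤ (C * ‖e‖) * |t - t'| := by positivity
      rw [sub_self, abs_zero, zero_add] at h1
      linarith)
    (fun t ht t' ht' => by
      have h1 := hX.lip1 hk0 hk (S.chart i (x + t • e)) (S.chart i (x + t' • e))
      have h2 := hdist t ht t' ht'
      linarith)
    (fun t ht t' ht' => by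
      have h1 := hX.lip2 hk0 hk (S.chart i (x + t • e)) (S.chart i (x + t' • e))
      have h2 := hdist t ht t' ht'
      linarith)
    np
    (by
      filter_upwards [hd] with φ hφ
      have h1 := (lineDeriv_of hφ e).sin
      refine h1.congr_deriv ?_
      rw [hp φ]
      simp)
    (lineDeriv_of d1 e) (lineDeriv_of d2 e) j
    (by
      have hc1 : ContinuousAt (fun t : ℝ => (X (S.chart i (x + t • e))).1) 0 :=
        (lineDeriv_of d1 e).continuousAt
      have hc2 : ContinuousAt (fun t : ℝ => (X (S.chart i (x + t • e))).2) 0 :=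
        (lineDeriv_of d2 e).continuousAt
      have hc3 := (hc1.pow 2).add (hc2.pow 2)
      have h0 := hc3.eventually (gt_mem_nhds (a := k ^ 2) (by simpa using hint))
      filter_upwards [h0] with t ht
      exact VI_eqn (hX.vi _) ht j)
  simp only [hx0] at key
  exact key

end

end Pool.Agent.Helper83K9.Cap
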