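import Mathlib
import Pool.Agent.Helper83K9.Cap.Chart

/-! # The Jacobian bound almost everywhere -/

set_option autoImplicit false

open Real MeasureTheory Set Filter Topology

namespace Pool.Agent.Helper83K9.Cap

open Pool.Agent.H115R3.Filling Pool.Agent.W664.Fill

/-- At a point where `f² + g²` has a local maximum the Jacobian of `f`, `g` vanishes. -/
theorem jac_eq_zero {f g : ℝ × ℝ → ℝ} {x : ℝ × ℝ} {κ : ℝ} (hκ : 0 < κ)
    (df : DifferentiableAt ℝ f x) (dg : DifferentiableAt ℝ g x) (hx : f x ^ 2 + g x ^ 2 = κ)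
    (hle : ∀ y, f y ^ 2 + g y ^ 2 ≤ κ) : jac f g x = 0 := by
  have hmax : IsLocalMax (fun y => f y ^ 2 + g y ^ 2) x := by
    apply Eventually.of_forall
    intro y
    show f y ^ 2 + g y ^ 2 ≤ f x ^ 2 + g x ^ 2
    rw [hx]
    exact hle y
  have h0 := hmax.fderiv_eq_zero
  have h1 : HasFDerivAt (fun y => f y ^ 2 + g y ^ 2)
      ((2 * f x) • fderiv ℝ f x + (2 * g x) • fderiv ℝ g x) x := by
    have h2 := (df.hasFDerivAt.fun_mul df.hasFDerivAt).fun_add
      (dg.hasFDerivAt.fun_mul dg.hasFDerivAt)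
    have h3 : (fun y => f y ^ 2 + g y ^ 2) = fun y => f y * f y + g y * g y := by
      funext y; ring
    rw [h3]
    refine h2.congr_fderiv ?_
    ext <;> simp <;> ring
  rw [h1.fderiv] at h0
  have ha := congrArg (fun L => L (1, 0)) h0
  have hb := congrArg (fun L => L (0, 1)) h0
  simp only [_root_.add_apply, _root_.smul_apply, smul_eq_mul, _root_.zero_apply] at ha hb
  unfold jac
  set fa := fderiv ℝ f x (1, 0)
  set fb := fderiv ℝ f x (0, 1)
  set ga := fderiv ℝ g x (1, 0)
  set gb := fderiv ℝ g x (0, 1)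
  have e1 : f x * (fa * gb - fb * ga) = 0 := by linear_combination (gb / 2) * ha - (ga / 2) * hb
  have e2 : g x * (fa * gb - fb * ga) = 0 := by linear_combination (fa / 2) * hb - (fb / 2) * ha
  have e3 : κ * (fa * gb - fb * ga) = 0 := by
    rw [← hx]; linear_combination f x * e1 + g x * e2
  exact (mul_eq_zero.mp e3).resolve_left hκ.ne'

section

variable {M : Type} [MetricSpace M] {S : OrientedSurface M}

theorem chart_jac {k : ℝ} (hk0 : 0 < k) (hk : k ^ 2 ≤ 1 / 3) {X : M → ℝ × ℝ}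
    (hX : Est S k X) (i : Fin S.faces) :
    ∀ᵐ x ∂(volume.restrict Sqo), DifferentiableAt ℝ (fun p => (X (S.chart i p)).1) x ∧
      DifferentiableAt ℝ (fun p => (X (S.chart i p)).2) x ∧
      jac (fun p => (X (S.chart i p)).1) (fun p => (X (S.chart i p)).2) x
        ≤ √(1 - ((X (S.chart i x)).1 ^ 2 + (X (S.chart i x)).2 ^ 2)) *
          √((S.metric i).E x * (S.metric i).G x - (S.metric i).F x ^ 2) := by
  have hk1 : k ≤ 1 := by nlinarith
  filter_upwards [ae_ae_diff S hk0.le hk1 i, ae_diff_of_lip (by norm_num) (hX.lip1 hk0.le hk) i,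
    ae_diff_of_lip (by norm_num) (hX.lip2 hk0.le hk) i,
    self_mem_ae_restrict isOpen_Sqo.measurableSet] with x hd d1 d2 hxo
  refine ⟨d1, d2, ?_⟩
  have hxS := Sqo_sub hxo
  set E := (S.metric i).E x with hE
  set F := (S.metric i).F x with hF
  set G := (S.metric i).G x with hG
  have hEpos : 0 < E := (S.metric i).pos_E x hxS
  have hDet : 0 < E * G - F ^ 2 := (S.metric i).pos_det x hxS
  set D := √(E * G - F ^ 2) with hD
  have hDpos : 0 < D := Real.sqrt_pos.mpr hDet
  have hD2 : D ^ 2 = E * G - F ^ 2 := Real.sq_sqrt hDet.le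
  set z := S.chart i x with hz'
  have hle := (hX.vi z).1
  rcases lt_or_eq_of_le hle with hlt | heq
  swap
  · rw [jac_eq_zero (κ := k ^ 2) (by positivity) d1 d2 heq (fun y => (hX.vi _).1)]
    positivity
  set rE := √E with hrE
  have hrEpos : 0 < rE := Real.sqrt_pos.mpr hEpos
  have hrE2 : rE ^ 2 = E := Real.sq_sqrt hEpos.le
  set e1 : ℝ × ℝ := (1 / rE, 0) with he1
  set e2 : ℝ × ℝ := (-F / (rE * D), rE / D) with he2
  have hlinE : ∀ (L : ℝ × ℝ →L[ℝ] ℝ), L e1 = L (1, 0) / rE := by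
    intro L
    have : e1 = (1 / rE) • ((1, 0) : ℝ × ℝ) := by simp [he1]
    rw [this, map_smul, smul_eq_mul]; ring
  have hlinE2 : ∀ (L : ℝ × ℝ →L[ℝ] ℝ), L e2 = -F / (rE * D) * L (1, 0) + rE / D * L (0, 1) := by
    intro L
    have : e2 = (-F / (rE * D)) • ((1, 0) : ℝ × ℝ) + (rE / D) • ((0, 1) : ℝ × ℝ) := by
      simp [he2]
    rw [this, map_add, map_smul, map_smul, smul_eq_mul, smul_eq_mul]
  -- the derivatives of the functions `s`
  set dd : ℝ → (ℝ × ℝ →L[ℝ] ℝ) := fun φ => fderiv ℝ (fun p => sfun S k φ (S.chart i p)) x with hdd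
  have hquad : ∀ φ (v : ℝ × ℝ), (dd φ v) ^ 2 ≤ E * v.1 ^ 2 + 2 * F * v.1 * v.2 + G * v.2 ^ 2 := by
    intro φ v
    by_cases hdiff : DifferentiableAt ℝ (fun p => sfun S k φ (S.chart i p)) x
    · exact (segLip_of S (sfun_lip_z S hk0.le hk1 φ) i).deriv_le hxo hdiff v
    · simp only [hdd]
      rw [fderiv_zero_of_not_differentiableAt hdiff]
      have := (S.metric i).quad_nonneg hxS v.1 v.2
      simpa using this
  have hon : ∀ φ, dd φ e1 ^ 2 + dd φ e2 ^ 2 ≤ 1 := by
    intro φ
    set a := dd φ e1 with ha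
    set b := dd φ e2 with hb
    have h1 := hquad φ (a • e1 + b • e2)
    have h2 : dd φ (a • e1 + b • e2) = a ^ 2 + b ^ 2 := by
      rw [map_add, map_smul, map_smul, smul_eq_mul, smul_eq_mul, ← ha, ← hb]; ring
    have h3 : E * (a • e1 + b • e2).1 ^ 2 + 2 * F * (a • e1 + b • e2).1 * (a • e1 + b • e2).2
        + G * (a • e1 + b • e2).2 ^ 2 = a ^ 2 + b ^ 2 := by
      simp only [he1, he2, Prod.fst_add, Prod.smul_fst, Prod.snd_add, Prod.smul_snd, smul_eq_mul,
        mul_zero, zero_add]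
      rw [← hrE2]
      have hG' : G = (D ^ 2 + F ^ 2) / rE ^ 2 := by
        rw [hD2, hrE2]; field_simp; ring
      rw [hG']
      field_simp
      ring
    rw [h2, h3] at h1
    by_contra hcon
    push Not at hcon
    nlinarith
  have hbd : ∀ φ, |dd φ e1| ≤ 1 ∧ |dd φ e2| ≤ 1 := by
    intro φ
    have := hon φ
    constructor
    · rw [← sq_le_one_iff_abs_le_one]; nlinarith [sq_nonneg (dd φ e2)]
    · rw [← sq_le_one_iff_abs_le_one]; nlinarith [sq_nonneg (dd φ e1)]
  have hfch : ∀ φ e, dd φ e = fderiv ℝ (fch S k i φ) x e := by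
    intro φ e
    simp only [hdd]
    rw [(fch_eventually S i φ hxo).fderiv_eq]
  have hcosm : Measurable (fun φ => cos (sfun S k φ z)) := by
    have hc : Continuous (fun φ => sfun S k φ z) := by
      have : LipschitzWith 1 (fun φ => sfun S k φ z) := LipschitzWith.of_dist_le_mul fun φ φ' => by
        have := sfun_lip S hk0.le hk1 φ φ' z z
        simpa [Real.dist_eq] using this
      exact this.continuous
    exact (continuous_cos.comp hc).measurable
  have np : ∀ e, (∀ φ, |dd φ e| ≤ 1) → Nice (fun φ => cos (sfun S k φ z) * dd φ e) := by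
    intro e he
    have h1 : Measurable (fun φ => dd φ e) := by
      have : (fun φ => dd φ e) = fun φ => fderiv ℝ (fch S k i φ) x e := funext fun φ => hfch φ e
      rw [this]
      exact measurable_fderiv_fch S hk0.le hk1 i x e
    exact Nice.mul ⟨hcosm, 1, fun φ => abs_cos_le_one _⟩ ⟨h1, 1, he⟩
  have n1 := np e1 (fun φ => (hbd φ).1)
  have n2 := np e2 (fun φ => (hbd φ).2)
  have D1 := chart_deqn hk0.le hk hX i hxo hd d1 d2 hlt e1 n1 (fun φ => rfl)
  have D2 := chart_deqn hk0.le hk hX i hxo hd d1 d2 hlt e2 n2 (fun φ => rfl)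
  have hpt := pointwise (hle.trans hk) (nice_hz S hk0.le hk1 z) n1 n2 (κ := k ^ 2) (by linarith)
    (hz_sq_le S hk0.le hk1 z)
    (fun φ => by
      have h1 := hon φ
      have h2 := sin_sq_add_cos_sq (sfun S k φ z)
      unfold hz
      rw [mul_pow, mul_pow, ← mul_add]
      nlinarith [sq_nonneg (cos (sfun S k φ z))])
    (fun j => VI_eqn (hX.vi z) hlt j) D1 D2
  rw [hlinE, hlinE, hlinE2, hlinE2] at hpt
  have hj : jac (fun p => (X (S.chart i p)).1) (fun p => (X (S.chart i p)).2) x / D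
      ≤ √(1 - ((X z).1 ^ 2 + (X z).2 ^ 2)) := by
    refine le_trans (le_of_eq ?_) hpt
    unfold jac
    field_simp
    ring
  rwa [div_le_iff₀ hDpos] at hj

end

end Pool.Agent.Helper83K9.Cap
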