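import Mathlib
import Pool.Agent.Helper83K9.Cap.Avg
import Pool.Agent.H115R3.Filling.Loop

/-! # Loop integrals of smooth functions -/

set_option autoImplicit false

open Finset Real MeasureTheory Filter Topology Set

namespace Pool.Agent.Helper83K9.Cap

open Pool.Agent.H115R3.Filling

section

variable {α β Γ α' β' : ℝ → ℝ} {B : ℝ}

theorem abs_sub_le_of_deriv {f f' : ℝ → ℝ} (hf : ∀ t, HasDerivAt f (f' t) t)
    (hf' : ∀ t, |f' t| ≤ B) (s t : ℝ) : |f t - f s| ≤ B * |t - s| := by
  have := convex_univ.norm_image_sub_le_of_norm_hasDerivWithin_le (f := f) (f' := f') (C := B)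
    (fun x _ => (hf x).hasDerivWithinAt) (fun x _ => hf' x) (mem_univ s) (mem_univ t)
  simpa [Real.norm_eq_abs] using this

theorem step_bound (hα : ∀ t, HasDerivAt α (α' t) t) (hβ : ∀ t, HasDerivAt β (β' t) t)
    (hα' : ∀ t, |α' t| ≤ B) (hβ' : ∀ t, |β' t| ≤ B)
    (hΓ : ∀ t, HasDerivAt Γ (α t * β' t - β t * α' t) t) {s t : ℝ} (hst : s ≤ t) :
    |α s * β t - α t * β s - (Γ t - Γ s)| ≤ 2 * B ^ 2 * (t - s) ^ 2 := by
  have hB : 0 ≤ B := (abs_nonneg _).trans (hα' 0)
  have key := norm_image_sub_le_of_norm_deriv_le_segment' (a := s) (b := t)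
    (f := fun x => α s * β x - α x * β s - Γ x)
    (f' := fun x => α s * β' x - α' x * β s - (α x * β' x - β x * α' x))
    (C := 2 * B ^ 2 * (t - s))
    (fun x _ => ((((hβ x).const_mul (α s)).fun_sub ((hα x).mul_const (β s))).fun_sub
      (hΓ x)).hasDerivWithinAt)
    (fun x hx => by
      have h1 := abs_sub_le_of_deriv hα hα' s x
      have h2 := abs_sub_le_of_deriv hβ hβ' s x
      have hxs : |x - s| ≤ t - s := by
        rw [abs_of_nonneg (by linarith [hx.1])]; linarith [hx.2]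
      have e : α s * β' x - α' x * β s - (α x * β' x - β x * α' x)
          = -((α x - α s) * β' x) + (β x - β s) * α' x := by ring
      rw [Real.norm_eq_abs, e]
      refine (abs_add_le _ _).trans ?_
      rw [abs_neg, abs_mul, abs_mul]
      have h3 : |α x - α s| * |β' x| ≤ (B * (t - s)) * B :=
        mul_le_mul (h1.trans (mul_le_mul_of_nonneg_left hxs hB)) (hβ' x) (abs_nonneg _)
          (mul_nonneg hB (by linarith))
      have h4 : |β x - β s| * |α' x| ≤ (B * (t - s)) * B :=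
        mul_le_mul (h2.trans (mul_le_mul_of_nonneg_left hxs hB)) (hα' x) (abs_nonneg _)
          (mul_nonneg hB (by linarith))
      nlinarith) t (right_mem_Icc.mpr hst)
  rw [Real.norm_eq_abs] at key
  have e : α s * β t - α t * β s - Γ t - (α s * β s - α s * β s - Γ s)
      = α s * β t - α t * β s - (Γ t - Γ s) := by ring
  rw [e] at key
  refine key.trans (le_of_eq ?_)
  ring

theorem edge_bound (hα : ∀ t, HasDerivAt α (α' t) t) (hβ : ∀ t, HasDerivAt β (β' t) t)
    (hα' : ∀ t, |α' t| ≤ B) (hβ' : ∀ t, |β' t| ≤ B)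
    (hΓ : ∀ t, HasDerivAt Γ (α t * β' t - β t * α' t) t) {a l : ℝ} (hl : 0 ≤ l) {n : ℕ}
    (hn : 0 < n) :
    |edge (fun u => α (a + u * l)) (fun u => β (a + u * l)) n - (Γ (a + l) - Γ a)|
      ≤ 2 * B ^ 2 * l ^ 2 / n := by
  have hnr : (0 : ℝ) < n := by exact_mod_cast hn
  have h1 : Γ (a + l) - Γ a = ∑ i ∈ range n, (Γ (a + ((i + 1 : ℕ) : ℝ) / n * l)
      - Γ (a + (i : ℝ) / n * l)) := by
    rw [Finset.sum_range_sub (fun i : ℕ => Γ (a + (i : ℝ) / n * l))]
    simp [hnr.ne']
  unfold edge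
  rw [h1, ← Finset.sum_sub_distrib]
  refine (Finset.abs_sum_le_sum_abs _ _).trans ?_
  have h2 : ∀ i ∈ range n, |α (a + (i : ℝ) / n * l) * β (a + ((i + 1 : ℕ) : ℝ) / n * l)
      - α (a + ((i + 1 : ℕ) : ℝ) / n * l) * β (a + (i : ℝ) / n * l)
      - (Γ (a + ((i + 1 : ℕ) : ℝ) / n * l) - Γ (a + (i : ℝ) / n * l))|
      ≤ 2 * B ^ 2 * (l / n) ^ 2 := by
    intro i _
    have hd : a + ((i + 1 : ℕ) : ℝ) / n * l - (a + (i : ℝ) / n * l) = l / n := by
      push_cast; field_simp; ring
    have h0 : 0 ≤ l / n := by positivity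
    have := step_bound hα hβ hα' hβ' hΓ (s := a + (i : ℝ) / n * l)
      (t := a + ((i + 1 : ℕ) : ℝ) / n * l) (by linarith)
    rwa [hd] at this
  refine (Finset.sum_le_sum h2).trans (le_of_eq ?_)
  rw [Finset.sum_const, card_range, nsmul_eq_mul]
  field_simp

theorem loopSum_tendsto {m : ℕ} (brk : Fin (m + 1) → ℝ) (hmono : StrictMono brk)
    (hα : ∀ t, HasDerivAt α (α' t) t) (hβ : ∀ t, HasDerivAt β (β' t) t)
    (hα' : ∀ t, |α' t| ≤ B) (hβ' : ∀ t, |β' t| ≤ B)
    (hΓ : ∀ t, HasDerivAt Γ (α t * β' t - β t * α' t) t) :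
    Tendsto (fun n : ℕ => loopSum brk α β n) atTop (𝓝 (Γ (brk (Fin.last m)) - Γ (brk 0))) := by
  have h1 : ∀ k : Fin m, Tendsto (fun n : ℕ => edge (fun u => α (arc brk k u))
      (fun u => β (arc brk k u)) n) atTop (𝓝 (Γ (brk k.succ) - Γ (brk k.castSucc))) := by
    intro k
    have hl : 0 ≤ brk k.succ - brk k.castSucc :=
      sub_nonneg.mpr (hmono (Fin.castSucc_lt_succ)).le
    rw [tendsto_iff_norm_sub_tendsto_zero]
    refine squeeze_zero' (Eventually.of_forall fun n => norm_nonneg _) ?_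
      (tendsto_const_div_atTop_nhds_zero_nat
        (2 * B ^ 2 * (brk k.succ - brk k.castSucc) ^ 2))
    filter_upwards [eventually_gt_atTop 0] with n hn
    have := edge_bound hα hβ hα' hβ' hΓ (a := brk k.castSucc) hl hn
    have e : brk k.castSucc + (brk k.succ - brk k.castSucc) = brk k.succ := by ring
    rw [e] at this
    exact this
  have h2 := tendsto_finsetSum Finset.univ (fun k _ => h1 k)
  rw [fin_telescope (fun k => Γ (brk k))] at h2
  exact h2

end

/-- The boundary integral. -/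
theorem cap_loop {m : ℕ} (brk : Fin (m + 1) → ℝ) (hmono : StrictMono brk) (h0 : brk 0 = 0)
    (h1 : brk (Fin.last m) = 2 * π) {k c : ℝ} (hc : 0 < c) (hkc : k ^ 2 + c ^ 2 = 1) :
    Tendsto (fun n : ℕ => loopSum brk (fun t => arctan (k * cos t / c)) (fun t => k * sin t) n)
      atTop (𝓝 (4 * π * (1 - c))) := by
  set A : ℝ → ℝ := fun t => ∫ u in (0 : ℝ)..t, 2 * π * aa c (-(π / 2)) u with hA
  have hcont : Continuous (fun u => 2 * π * aa c (-(π / 2)) u) :=
    continuous_const.mul (continuous_aa hc)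
  have hAd : ∀ t, HasDerivAt A (2 * π * aa c (-(π / 2)) t) t := fun t =>
    intervalIntegral.integral_hasDerivAt_right (hcont.intervalIntegrable _ _)
      hcont.stronglyMeasurable.stronglyMeasurableAtFilter hcont.continuousAt
  have hA0 : A 0 = 0 := by simp [hA]
  have hA1 : A (2 * π) = 2 * π := by
    have := Av_one (β := -(π / 2)) hc
    unfold Av at this
    simp only [one_mul] at this
    simp only [hA]
    rw [intervalIntegral.integral_const_mul, this, mul_one]
  have hpos : ∀ t, 0 < c ^ 2 + (k * cos t) ^ 2 := fun t => by positivity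
  have hden : ∀ t, 1 - k ^ 2 * sin t ^ 2 = c ^ 2 + (k * cos t) ^ 2 := by
    intro t
    have ht := sin_sq_add_cos_sq t
    linear_combination (-1 : ℝ) * hkc - k ^ 2 * ht
  have haa : ∀ t, 2 * π * aa c (-(π / 2)) t = c / (1 - k ^ 2 * sin t ^ 2) := by
    intro t
    unfold aa rho2
    have e1 : t - -(π / 2) = t + π / 2 := by ring
    rw [e1, cos_add_pi_div_two, sin_add_pi_div_two]
    have ht := sin_sq_add_cos_sq t
    have e2 : c ^ 2 * (-sin t) ^ 2 + cos t ^ 2 = 1 - k ^ 2 * sin t ^ 2 := by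
      linear_combination (sin t ^ 2) * hkc + ht
    rw [e2]
    have h3 : 0 < 1 - k ^ 2 * sin t ^ 2 := by
      rw [hden]
      exact hpos t
    have := Real.pi_pos
    field_simp
  set α' : ℝ → ℝ := fun t => -(c * (k * sin t)) / (c ^ 2 + (k * cos t) ^ 2) with hα'
  have hαd : ∀ t, HasDerivAt (fun t => arctan (k * cos t / c)) (α' t) t := by
    intro t
    have h2 := (((hasDerivAt_cos t).const_mul k).div_const c).arctan
    refine h2.congr_deriv ?_
    simp only [hα']
    have := hpos t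
    have e : 1 + (k * cos t / c) ^ 2 = (c ^ 2 + (k * cos t) ^ 2) / c ^ 2 := by field_simp
    rw [e]
    field_simp
  have hβd : ∀ t, HasDerivAt (fun t => k * sin t) (k * cos t) t := fun t =>
    (hasDerivAt_sin t).const_mul k
  have hk2 : k ^ 2 ≤ 1 := by nlinarith [sq_nonneg c]
  have hk1 : |k| ≤ 1 := by rwa [← sq_le_one_iff_abs_le_one]
  have hc1 : c ≤ 1 := by nlinarith [sq_nonneg k]
  have hB : (1 : ℝ) ≤ 1 / c := (one_le_div hc).mpr hc1
  have hαb : ∀ t, |α' t| ≤ 1 / c := by
    intro t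
    simp only [hα']
    rw [abs_div, abs_neg, abs_of_pos (hpos t), div_le_div_iff₀ (hpos t) hc, abs_mul, abs_mul,
      abs_of_pos hc]
    have hs := abs_sin_le_one t
    have h3 : |k| * |sin t| ≤ 1 := by
      calc |k| * |sin t| ≤ 1 * 1 := mul_le_mul hk1 hs (abs_nonneg _) zero_le_one
        _ = 1 := one_mul 1
    nlinarith [sq_nonneg (k * cos t), mul_pos hc hc]
  have hβb : ∀ t, |k * cos t| ≤ 1 / c := by
    intro t
    rw [abs_mul]
    calc |k| * |cos t| ≤ 1 * 1 := mul_le_mul hk1 (abs_cos_le_one t) (abs_nonneg _) zero_le_one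
      _ ≤ 1 / c := by rw [one_mul]; exact hB
  have key := loopSum_tendsto brk hmono (α := fun t => arctan (k * cos t / c))
    (β := fun t => k * sin t) (α' := α') (β' := fun t => k * cos t) (B := 1 / c)
    (Γ := fun t => arctan (k * cos t / c) * (k * sin t) + 2 * (A t - c * t)) hαd hβd hαb hβb
    (by
      intro t
      have h2 := ((hαd t).fun_mul (hβd t)).fun_add
        (((hAd t).fun_sub ((hasDerivAt_id' t).const_mul c)).const_mul 2)
      refine h2.congr_deriv ?_
      rw [haa, hden]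
      simp only [hα']
      have h3 := hpos t
      have ht := sin_sq_add_cos_sq t
      field_simp
      linear_combination (-(2 * k ^ 2 * c)) * ht - (2 * c) * hkc)
  rw [h0, h1] at key
  have e : arctan (k * cos (2 * π) / c) * (k * sin (2 * π)) + 2 * (A (2 * π) - c * (2 * π)) -
      (arctan (k * cos 0 / c) * (k * sin 0) + 2 * (A 0 - c * 0)) = 4 * π * (1 - c) := by
    rw [hA0, hA1, sin_two_pi, sin_zero]
    ring
  rw [e] at key
  exact key

end Pool.Agent.Helper83K9.Cap
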