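import Mathlib
import Pool.Agent.Helper83K9.Cap.Jac
import Pool.Agent.Helper83K9.Cap.Loop

/-! # The area of surfaces bounded by the circle of a spherical cap -/

set_option autoImplicit false

open Real MeasureTheory Set Filter Topology

namespace Pool.Agent.Helper83K9.Cap

open Pool.Agent.H115R3.Filling Pool.Agent.W664.Fill

/-- the first coordinate function -/
noncomputable def PP (a b : ℝ) : ℝ := arctan (a / √(1 - (a ^ 2 + b ^ 2)))

theorem arctan_lip (a b : ℝ) : |arctan a - arctan b| ≤ |a - b| := by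
  have := abs_sub_le_of_deriv (f := arctan) (f' := fun x => 1 / (1 + x ^ 2)) (B := 1)
    hasDerivAt_arctan (fun t => by
      rw [abs_of_pos (by positivity)]
      exact (div_le_one (by positivity)).mpr (by nlinarith [sq_nonneg t])) b a
  simpa using this

theorem sqrt_ge {q : ℝ} (h : q ≤ 1 / 3) : 4 / 5 ≤ √(1 - q) :=
  Real.le_sqrt_of_sq_le (by norm_num; linarith)

theorem sum_le_six {a b : ℝ} (ha : a ^ 2 ≤ 1 / 3) (hb : b ^ 2 ≤ 1 / 3) : |a + b| ≤ 6 / 5 := by
  apply abs_le_of_sq_le_sq _ (by norm_num)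
  nlinarith [sq_nonneg (a - b)]

theorem le_three {a : ℝ} (ha : a ^ 2 ≤ 1 / 3) : |a| ≤ 3 / 5 :=
  abs_le_of_sq_le_sq (by norm_num; linarith) (by norm_num)

theorem PP_lip {a b a' b' : ℝ} (h : a ^ 2 + b ^ 2 ≤ 1 / 3) (h' : a' ^ 2 + b' ^ 2 ≤ 1 / 3) :
    |PP a b - PP a' b'| ≤ 2 * (|a - a'| + |b - b'|) := by
  have ha2 : a ^ 2 ≤ 1 / 3 := by linarith [sq_nonneg b]
  have hb2 : b ^ 2 ≤ 1 / 3 := by linarith [sq_nonneg a]
  have ha2' : a' ^ 2 ≤ 1 / 3 := by linarith [sq_nonneg b']
  have hb2' : b' ^ 2 ≤ 1 / 3 := by linarith [sq_nonneg a']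
  unfold PP
  refine (arctan_lip _ _).trans ?_
  have hc2 : √(1 - (a ^ 2 + b ^ 2)) ^ 2 = 1 - (a ^ 2 + b ^ 2) := Real.sq_sqrt (by linarith)
  have hd2 : √(1 - (a' ^ 2 + b' ^ 2)) ^ 2 = 1 - (a' ^ 2 + b' ^ 2) := Real.sq_sqrt (by linarith)
  have hc4 := sqrt_ge h
  have hd4 := sqrt_ge h'
  have hs1 := sum_le_six ha2 ha2'
  have hs2 := sum_le_six hb2 hb2'
  have ha' := le_three ha2'
  generalize √(1 - (a ^ 2 + b ^ 2)) = c at *
  generalize √(1 - (a' ^ 2 + b' ^ 2)) = d at *
  have hcpos : 0 < c := by linarith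
  have hdpos : 0 < d := by linarith
  have e : a / c - a' / d = (a - a') / c
      + a' * ((a' - a) * (a + a') + (b' - b) * (b + b')) / (c * d * (c + d)) * (-1) := by
    have e1 : (a' - a) * (a + a') + (b' - b) * (b + b') = c ^ 2 - d ^ 2 := by
      rw [hc2, hd2]; ring
    rw [e1]
    field_simp
    ring
  rw [e]
  refine (abs_add_le _ _).trans ?_
  have A1 := abs_nonneg (a - a')
  have A2 := abs_nonneg (b - b')
  have t1 : |(a - a') / c| ≤ 5 / 4 * |a - a'| := by
    rw [abs_div, abs_of_pos hcpos, div_le_iff₀ hcpos]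
    nlinarith
  have hden : 1 ≤ c * d * (c + d) := by
    have h1 : 16 / 25 ≤ c * d := by nlinarith
    nlinarith
  have h1 : |(a' - a) * (a + a') + (b' - b) * (b + b')| ≤ 6 / 5 * (|a - a'| + |b - b'|) := by
    refine (abs_add_le _ _).trans ?_
    rw [abs_mul, abs_mul, abs_sub_comm a' a, abs_sub_comm b' b]
    have h2 := mul_le_mul_of_nonneg_left hs1 A1
    have h3 := mul_le_mul_of_nonneg_left hs2 A2
    linarith
  have hn : |a' * ((a' - a) * (a + a') + (b' - b) * (b + b'))|
      ≤ 3 / 4 * (|a - a'| + |b - b'|) := by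
    rw [abs_mul]
    calc |a'| * |(a' - a) * (a + a') + (b' - b) * (b + b')|
        ≤ (3 / 5) * (6 / 5 * (|a - a'| + |b - b'|)) :=
          mul_le_mul ha' h1 (abs_nonneg _) (by norm_num)
      _ ≤ 3 / 4 * (|a - a'| + |b - b'|) := by linarith
  have t2 : |a' * ((a' - a) * (a + a') + (b' - b) * (b + b')) / (c * d * (c + d)) * (-1)|
      ≤ 3 / 4 * (|a - a'| + |b - b'|) := by
    rw [mul_neg_one, abs_neg, abs_div, abs_of_pos (by linarith : 0 < c * d * (c + d)),
      div_le_iff₀ (by linarith)]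
    have hA : 0 ≤ 3 / 4 * (|a - a'| + |b - b'|) := by positivity
    calc _ ≤ 3 / 4 * (|a - a'| + |b - b'|) * 1 := by rw [mul_one]; exact hn
      _ ≤ _ := mul_le_mul_of_nonneg_left hden hA
  linarith

theorem PP_diff {f g : ℝ × ℝ → ℝ} {x : ℝ × ℝ} (df : DifferentiableAt ℝ f x)
    (dg : DifferentiableAt ℝ g x) (h : f x ^ 2 + g x ^ 2 ≤ 1 / 3) :
    DifferentiableAt ℝ (fun y => PP (f y) (g y)) x := by
  have hpos : 0 < 1 - (f x ^ 2 + g x ^ 2) := by linarith
  have h1 : DifferentiableAt ℝ (fun y => 1 - (f y ^ 2 + g y ^ 2)) x :=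
    (DifferentiableAt.fun_add (df.fun_pow 2) (dg.fun_pow 2)).const_sub 1
  have h2 := h1.sqrt hpos.ne'
  have h3 := h2.fun_inv (Real.sqrt_pos.mpr hpos).ne'
  have h4 := (df.fun_mul h3).arctan
  unfold PP
  simp only [div_eq_mul_inv]
  exact h4

/-- `dP ∧ dX₂ = dX₁ ∧ dX₂ / √(1 - |X|²)` -/
theorem jac_PP {f g : ℝ × ℝ → ℝ} {x : ℝ × ℝ} (df : DifferentiableAt ℝ f x)
    (dg : DifferentiableAt ℝ g x) (h : f x ^ 2 + g x ^ 2 ≤ 1 / 3) :
    jac (fun y => PP (f y) (g y)) g x = jac f g x / √(1 - (f x ^ 2 + g x ^ 2)) := by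
  set c := √(1 - (f x ^ 2 + g x ^ 2)) with hc
  have hpos : 0 < 1 - (f x ^ 2 + g x ^ 2) := by linarith
  have hcpos : 0 < c := Real.sqrt_pos.mpr hpos
  have hc2 : c ^ 2 = 1 - (f x ^ 2 + g x ^ 2) := Real.sq_sqrt hpos.le
  set u := f x with hu
  set v := g x with hv
  have h4 : 0 < c ^ 2 + u ^ 2 := by positivity
  have key : ∀ e, fderiv ℝ (fun y => PP (f y) (g y)) x e
      = ((c ^ 2 + u ^ 2) * fderiv ℝ f x e + u * v * fderiv ℝ g x e) / (c * (c ^ 2 + u ^ 2)) := by
    intro e
    have d0 := lineDeriv_of (PP_diff df dg h) e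
    have d1 := lineDeriv_of df e
    have d2 := lineDeriv_of dg e
    have hx0 : x + (0 : ℝ) • e = x := by simp
    have d3 := ((d1.fun_pow 2).fun_add (d2.fun_pow 2)).const_sub 1
    have d4 := d3.sqrt (by rw [hx0]; exact hpos.ne')
    have d5 := (d1.fun_div d4 (by rw [hx0]; exact hcpos.ne')).arctan
    have d6 := d0.unique d5
    rw [d6]
    rw [hx0, ← hu, ← hv, ← hc]
    have h5 : 1 + (u / c) ^ 2 = (c ^ 2 + u ^ 2) / c ^ 2 := by field_simp
    rw [h5]
    push_cast
    field_simp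
    ring
  unfold jac
  rw [key, key]
  have h6 : v ^ 2 = 1 - c ^ 2 - u ^ 2 := by linarith
  field_simp
  ring

section

variable {M : Type} [MetricSpace M] (S : OrientedSurface M)

/-- **Main theorem.** -/
theorem cap_area {k : ℝ} (hk0 : 0 < k) (hk : k ^ 2 ≤ 1 / 3) (hS : CapNoShortcut S k) :
    2 * π * (1 - √(1 - k ^ 2)) ≤ S.area := by
  have hk1 : k ≤ 1 := by nlinarith
  obtain ⟨X, hX⟩ := exists_est S hk0.le hk
  set c := √(1 - k ^ 2) with hc
  have hpos : 0 < 1 - k ^ 2 := by linarith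
  have hcpos : 0 < c := Real.sqrt_pos.mpr hpos
  have hc2 : c ^ 2 = 1 - k ^ 2 := Real.sq_sqrt hpos.le
  have hX3 : ∀ z, (X z).1 ^ 2 + (X z).2 ^ 2 ≤ 1 / 3 := fun z => ((hX.vi z).1).trans hk
  -- boundary values
  have hbd : ∀ t : ℝ, X (S.boundary (t : AddCircle (2 * π))) = (k * cos t, k * sin t) := by
    intro t
    have hpen : hz S k (S.boundary (t : AddCircle (2 * π))) = lin (k * cos t) (k * sin t) := by
      funext φ
      rw [hz_boundary S hk0.le hk1 hS, cos_sub]
      unfold lin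
      ring
    have hsq : (k * cos t) ^ 2 + (k * sin t) ^ 2 ≤ k ^ 2 := by
      have := sin_sq_add_cos_sq t
      apply le_of_eq
      linear_combination k ^ 2 * this
    have v1 := hX.vi (S.boundary (t : AddCircle (2 * π)))
    have v2 := VI_pencil (k := k) hsq
    rw [hpen] at v1
    have n1 : Nice (lin (k * cos t) (k * sin t)) := nice_lin _ _
    have h1 := VI_lip hk n1 n1 (fun φ => (lin_sq_le _ _ φ).trans hsq) (δ := 0)
      (fun φ => by simp) v1 v2
    rw [mul_zero] at h1
    have h2 := Real.sqrt_eq_zero'.mp (le_antisymm h1 (Real.sqrt_nonneg _))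
    simp only at h2
    have h3 : (k * cos t - (X (S.boundary (t : AddCircle (2 * π)))).1) ^ 2 = 0 := by
      apply le_antisymm _ (sq_nonneg _)
      nlinarith [sq_nonneg (k * sin t - (X (S.boundary (t : AddCircle (2 * π)))).2)]
    have h4 : (k * sin t - (X (S.boundary (t : AddCircle (2 * π)))).2) ^ 2 = 0 := by
      apply le_antisymm _ (sq_nonneg _)
      nlinarith [sq_nonneg (k * cos t - (X (S.boundary (t : AddCircle (2 * π)))).1)]
    have h5 := pow_eq_zero_iff (two_ne_zero) |>.mp h3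
    have h6 := pow_eq_zero_iff (two_ne_zero) |>.mp h4
    apply Prod.ext
    · simp only; linarith
    · simp only; linarith
  have key := area_ge_of_cal S (ι := Unit) {()} (fun _ => 324)
    (fun _ z => PP (X z).1 (X z).2 * (1 / 36)) (fun _ z => (X z).2 * (1 / 9))
    (fun _ x y => by
      rw [← sub_mul, abs_mul, abs_of_pos (by norm_num : (0 : ℝ) < 1 / 36)]
      have h1 := PP_lip (hX3 x) (hX3 y)
      have h2 := hX.lip1 hk0.le hk x y
      have h3 := hX.lip2 hk0.le hk x y
      linarith)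
    (fun _ x y => by
      rw [← sub_mul, abs_mul, abs_of_pos (by norm_num : (0 : ℝ) < 1 / 9)]
      have h3 := hX.lip2 hk0.le hk x y
      linarith)
    (fun i => by
      filter_upwards [chart_jac hk0 hk hX i] with x hx
      obtain ⟨d1, d2, hj⟩ := hx
      rw [Finset.sum_singleton]
      have hPd : DifferentiableAt ℝ
          (fun p => PP (X (S.chart i p)).1 (X (S.chart i p)).2) x := PP_diff d1 d2 (hX3 _)
      have e1 : 324 * jac (fun p => PP (X (S.chart i p)).1 (X (S.chart i p)).2 * (1 / 36))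
          (fun p => (X (S.chart i p)).2 * (1 / 9)) x
          = jac (fun p => PP (X (S.chart i p)).1 (X (S.chart i p)).2)
            (fun p => (X (S.chart i p)).2) x := by
        have g1 := (hPd.hasFDerivAt.mul_const (1 / 36 : ℝ)).fderiv
        have g2 := (d2.hasFDerivAt.mul_const (1 / 9 : ℝ)).fderiv
        unfold jac
        rw [g1, g2]
        simp only [_root_.smul_apply, smul_eq_mul]
        ring
      rw [e1, jac_PP d1 d2 (hX3 _)]
      have hcz : 0 < √(1 - ((X (S.chart i x)).1 ^ 2 + (X (S.chart i x)).2 ^ 2)) :=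
        Real.sqrt_pos.mpr (by have := hX3 (S.chart i x); linarith)
      rw [div_le_iff₀ hcz]
      rw [mul_comm]
      exact hj)
    (2 * π * (1 - c))
    (by
      simp only [Finset.sum_singleton]
      have h1 := cap_loop S.brk S.brk_strictMono S.brk_zero S.brk_last (k := k) hcpos
        (by rw [hc2]; ring)
      have h2 := h1.div_const 2
      have e2 : 4 * π * (1 - c) / 2 = 2 * π * (1 - c) := by ring
      rw [e2] at h2
      refine h2.congr ?_
      intro n
      have e3 : ∀ t : ℝ, PP (k * cos t) (k * sin t) = arctan (k * cos t / c) := by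
        intro t
        unfold PP
        rw [hc]
        congr 3
        have := sin_sq_add_cos_sq t
        linear_combination (-(k ^ 2)) * this
      simp only [hbd, e3]
      unfold loopSum edge
      rw [← mul_div_assoc, Finset.mul_sum]
      congr 1
      apply Finset.sum_congr rfl
      intro j _
      rw [Finset.mul_sum]
      apply Finset.sum_congr rfl
      intro l _
      ring)
  exact key

end

end Pool.Agent.Helper83K9.Cap
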